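import Pool.Agent.Full.SixV.Weights

/-!
# The row transfer matrix as a sum over the arrows of the auxiliary line
-/

set_option autoImplicit false

namespace Full.Dict3
open SixV Matrix Finset

variable {n : ℕ}

/-- the next arrow on the auxiliary line, `x` after the last one -/
def nx (a : Cfg n) (x : Bool) (j : Fin n) : Bool := if h : (j : ℕ) + 1 < n then a ⟨j + 1, h⟩ else x

lemma nx_cons_zero (a0 : Bool) (a : Cfg (n + 1)) (x : Bool) :
    nx (Fin.cons a0 a : Cfg (n + 2)) x 0 = a 0 := by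
  unfold nx
  rw [dif_pos (by simp)]
  rfl

lemma nx_cons_succ (a0 : Bool) (a : Cfg (n + 1)) (x : Bool) (j : Fin (n + 1)) :
    nx (Fin.cons a0 a : Cfg (n + 2)) x j.succ = nx a x j := by
  unfold nx
  by_cases h : (j : ℕ) + 1 < n + 1
  · rw [dif_pos h, dif_pos (by rw [Fin.val_succ]; omega)]
    rfl
  · rw [dif_neg h, dif_neg (by rw [Fin.val_succ]; omega)]

/-- entries of the ordered product as a sum over paths -/
theorem rp_path (L : Bool → Bool → Matrix Bool Bool ℂ) : ∀ (n : ℕ) (s' s : Cfg (n + 1)) (x' x : Bool),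
    rp L (n + 1) s' s x' x = ∑ a : Cfg (n + 1), if a 0 = x' then
      ∏ j, L (s' j) (s j) (a j) (nx a x j) else 0
  | 0, s', s, x', x => by
    rw [rp_succ, rp_zero, mul_one, sum_cfg]
    have h : ∀ a0 : Bool, (∑ a : Cfg 0, if (Fin.cons a0 a : Cfg 1) 0 = x' then
        ∏ j, L (s' j) (s j) ((Fin.cons a0 a : Cfg 1) j) (nx (Fin.cons a0 a : Cfg 1) x j) else 0) =
        if a0 = x' then L (s' 0) (s 0) a0 x else 0 := by
      intro a0
      rw [Fintype.sum_unique]
      simp only [Fin.cons_zero]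
      congr 1
      rw [Fin.prod_univ_succ, Fin.prod_univ_zero, mul_one]
      rfl
    rw [Finset.sum_congr rfl fun a0 _ => h a0, Finset.sum_ite_eq' Finset.univ x']
    simp
  | n + 1, s', s, x', x => by
    rw [rp_succ, Matrix.mul_apply, sum_cfg]
    have h1 : ∀ y : Bool, L (s' 0) (s 0) x' y * rp L (n + 1) (Fin.tail s') (Fin.tail s) y x =
        ∑ a : Cfg (n + 1), if a 0 = y then L (s' 0) (s 0) x' (a 0) *
          ∏ j, L (s' j.succ) (s j.succ) (a j) (nx a x j) else 0 := by
      intro y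
      rw [rp_path L n, Finset.mul_sum]
      refine Finset.sum_congr rfl fun a _ => ?_
      split_ifs with h
      · rw [h]; rfl
      · rw [mul_zero]
    rw [Finset.sum_congr rfl fun y _ => h1 y, Finset.sum_comm]
    have h2 : ∀ a : Cfg (n + 1), (∑ y : Bool, if a 0 = y then L (s' 0) (s 0) x' (a 0) *
        ∏ j, L (s' j.succ) (s j.succ) (a j) (nx a x j) else 0) =
        L (s' 0) (s 0) x' (a 0) * ∏ j, L (s' j.succ) (s j.succ) (a j) (nx a x j) := by
      intro a
      rw [Finset.sum_ite_eq Finset.univ (a 0)]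
      simp
    rw [Finset.sum_congr rfl fun a _ => h2 a]
    have h3 : ∀ a0 : Bool, (∑ a : Cfg (n + 1), if (Fin.cons a0 a : Cfg (n + 2)) 0 = x' then
        ∏ j, L (s' j) (s j) ((Fin.cons a0 a : Cfg (n + 2)) j) (nx (Fin.cons a0 a : Cfg (n + 2)) x j)
          else 0) = if a0 = x' then ∑ a : Cfg (n + 1), L (s' 0) (s 0) a0 (a 0) *
            ∏ j, L (s' j.succ) (s j.succ) (a j) (nx a x j) else 0 := by
      intro a0
      simp only [Fin.cons_zero]
      split_ifs with h
      · refine Finset.sum_congr rfl fun a _ => ?_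
        rw [Fin.prod_univ_succ]
        simp only [Fin.cons_zero, Fin.cons_succ, nx_cons_zero, nx_cons_succ]
      · simp
    rw [Finset.sum_congr rfl fun a0 _ => h3 a0, Finset.sum_ite_eq' Finset.univ x']
    simp

/-- **the twisted row transfer matrix as a sum over the arrows of the closed auxiliary line** -/
theorem T_sum (n : ℕ) (d : Bool → ℂ) (u : ℂ) (s' s : Cfg (n + 1)) :
    T (n + 1) d u s' s = ∑ a : Cfg (n + 1), d (a 0) * ∏ j, L u (s' j) (s j) (a j) (nx a (a 0) j) := by
  unfold T mpo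
  rw [Matrix.trace]
  have h1 : ∀ x : Bool, Matrix.diag (Matrix.diagonal d * rp (L u) (n + 1) s' s) x =
      ∑ a : Cfg (n + 1), if a 0 = x then d (a 0) * ∏ j, L u (s' j) (s j) (a j) (nx a (a 0) j) else 0 := by
    intro x
    rw [Matrix.diag_apply, Matrix.diagonal_mul, rp_path, Finset.mul_sum]
    refine Finset.sum_congr rfl fun a _ => ?_
    split_ifs with h
    · rw [h]
    · rw [mul_zero]
  rw [Finset.sum_congr rfl fun x _ => h1 x, Finset.sum_comm]
  refine Finset.sum_congr rfl fun a _ => ?_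
  rw [Finset.sum_ite_eq Finset.univ (a 0)]
  simp

end Full.Dict3
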