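import Pool.Agent.Full.Dict3.Vec
import Pool.Agent.Full.Dict3.RowSum

/-!
# The network of a closed row is the six vertex row transfer matrix

The arrow on a vertical edge is `true` if it points up, the arrow on a horizontal edge is `true` if it
points to the west.
-/

set_option autoImplicit false

namespace Full.Net
open SixV Finset Function Dict3

variable {τ : Type*} {n : ℕ}

/-- the next column, cyclically -/
def nxt (j : Fin (n + 1)) : Fin (n + 1) := if h : (j : ℕ) + 1 < n + 1 then ⟨j + 1, h⟩ else 0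

lemma nx_eq (a : Cfg (n + 1)) (j : Fin (n + 1)) : nx a (a 0) j = a (nxt j) := by
  unfold nx nxt
  split_ifs <;> rfl

lemma nxt_surj (j : Fin (n + 1)) : ∃ i : Fin (n + 1), nxt i = j := by
  by_cases h : (j : ℕ) = 0
  · refine ⟨Fin.last n, ?_⟩
    unfold nxt
    rw [dif_neg (by simp)]
    exact Fin.ext h.symm
  · refine ⟨⟨j - 1, by omega⟩, ?_⟩
    unfold nxt
    rw [dif_pos (by simp only; omega)]
    exact Fin.ext (by simp only; omega)

/-- the outgoing sides of the tile `j`: `s'` arrows above, `s` arrows below, `a` arrows on the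
auxiliary line -/
def ro (s' s a : Cfg (n + 1)) (j : Fin (n + 1)) : Dir → Bool
  | .N => s' j
  | .S => !s j
  | .W => a j
  | .E => !a (nxt j)

/-- the weight of opposite outgoing sides at the isotropic point -/
noncomputable def c6 : ℂ := ((Real.sqrt 3 / 2 : ℝ) : ℂ)

/-- at the isotropic point -/
lemma L_iso' (s' s x' x : Bool) : L ((Real.pi / 6 : ℝ) : ℂ) s' s x' x =
    if x' = x ∧ s' = s then 1 / 2 else if x' = s ∧ s' = x then c6 else 0 := by
  have h1 : Complex.sin (lam - ((Real.pi / 6 : ℝ) : ℂ)) = 1 / 2 := by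
    have : lam - ((Real.pi / 6 : ℝ) : ℂ) = ((Real.pi / 6 : ℝ) : ℂ) := by
      unfold lam; push_cast; ring
    rw [this, ← Complex.ofReal_sin, Real.sin_pi_div_six]
    push_cast
    ring
  have h2 : Complex.sin (lam + ((Real.pi / 6 : ℝ) : ℂ)) = 1 := by
    have : lam + ((Real.pi / 6 : ℝ) : ℂ) = ((Real.pi / 2 : ℝ) : ℂ) := by
      unfold lam; push_cast; ring
    rw [this, ← Complex.ofReal_sin, Real.sin_pi_div_two]
    push_cast
    ring
  have h3 : Complex.sin ((Real.pi / 6 : ℝ) : ℂ) = 1 / 2 := by
    rw [← Complex.ofReal_sin, Real.sin_pi_div_six]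
    push_cast
    ring
  have h4 : Complex.sin lam = c6 := by
    unfold lam c6
    rw [← Complex.ofReal_sin, Real.sin_pi_div_three]
  unfold L Lt
  rw [h1, h2, h3, h4]
  simp only [div_one, ite_self]

/-- the weight of a tile is the entry of the local tensor -/
lemma tw_ro (s' s a : Cfg (n + 1)) (j : Fin (n + 1)) : tw c6 (ro s' s a j) =
    L ((Real.pi / 6 : ℝ) : ℂ) (s' j) (s j) (a j) (nx a (a 0) j) := by
  rw [L_iso', nx_eq]
  unfold tw
  simp only [ro]
  have key : ∀ x y z w : Bool, (if (!w) ≠ z ∧ x ≠ (!y) then (1 / 2 : ℂ) else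
      if (!w) = z ∧ x = (!y) ∧ (!w) ≠ x then c6 else 0) =
      if z = w ∧ x = y then 1 / 2 else if z = y ∧ x = w then c6 else 0 := by
    intro x y z w
    cases x <;> cases y <;> cases z <;> cases w <;> simp
  exact key _ _ _ _

/-- the tiles `p j` form a row closed to a cylinder, open above and below -/
structure ClosedRow (p : Fin (n + 1) → τ) (g : Half τ → Half τ) : Prop where
  inj : Injective p
  E : ∀ j, g (p j, .E) = (p (nxt j), .W)
  W : ∀ j, g (p (nxt j), .W) = (p j, .E)
  N : ∀ j, g (p j, .N) = (p j, .N)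
  S : ∀ j, g (p j, .S) = (p j, .S)

section row
variable [DecidableEq τ] {p : Fin (n + 1) → τ} {g : Half τ → Half τ}

/-- the tiles of the row -/
def rT (p : Fin (n + 1) → τ) : Finset τ := Finset.univ.image p

lemma mem_rT (j : Fin (n + 1)) : p j ∈ rT p := Finset.mem_image_of_mem p (Finset.mem_univ j)

lemma mem_rT_iff {t : τ} : t ∈ rT p ↔ ∃ j, t = p j := by
  unfold rT
  rw [mem_image]
  exact ⟨fun ⟨j, _, h⟩ => ⟨j, h.symm⟩, fun ⟨j, h⟩ => ⟨j, mem_univ _, h.symm⟩⟩

open Classical in
/-- the outgoing half edges -/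
noncomputable def rO (p : Fin (n + 1) → τ) (s' s a : Cfg (n + 1)) : Finset (Half τ) :=
  (hs (rT p)).filter fun x => ∃ j, x.1 = p j ∧ ro s' s a j x.2 = true

lemma mem_rO (hp : Injective p) {s' s a : Cfg (n + 1)} {j : Fin (n + 1)} {d : Dir} :
    (p j, d) ∈ rO p s' s a ↔ ro s' s a j d = true := by
  classical
  unfold rO
  rw [Finset.mem_filter]
  constructor
  · rintro ⟨-, i, h1, h2⟩
    rw [hp h1]
    exact h2
  · intro h
    exact ⟨mem_hs.2 (mem_rT j), j, rfl, h⟩

/-- the labels of the open sides of a row: above and below -/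
def tbE (p : Fin (n + 1) → τ) : Fin (n + 1) ⊕ Fin (n + 1) → Half τ :=
  Sum.elim (fun j => (p j, .N)) fun j => (p j, .S)

/-- **the network of a closed row with given arrows above and below** -/
theorem vec_row (h : ClosedRow p g) (c : ℂ) (β : Half τ → Bool → ℂ) (s' s : Cfg (n + 1)) :
    vec (rT p) g c β (tbE p) (Sum.elim s' fun j => !s j) = ∑ a : Cfg (n + 1),
      ∏ j, (tw c (ro s' s a j) * ∏ d, β (p j, d) (ro s' s a j d)) := by
  classical
  unfold vec
  symm
  refine Finset.sum_nbij' (fun a => rO p s' s a)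
    (fun O => ((fun j => decide ((p j, Dir.W) ∈ O)) : Cfg (n + 1))) ?_ ?_ ?_ ?_ ?_
  · intro a _
    rw [mem_ConsP]
    refine ⟨⟨Finset.filter_subset _ _, ?_⟩, ?_⟩
    · intro x hx hne
      obtain ⟨t, d⟩ := x
      rw [mem_hs] at hx
      obtain ⟨j, hj⟩ := mem_rT_iff.1 hx
      simp only at hj
      subst hj
      cases d with
      | E => rw [h.E, mem_rO h.inj, mem_rO h.inj]; simp [ro]
      | N => exact absurd (h.N j) hne
      | W =>
        obtain ⟨i, hi⟩ := nxt_surj j
        rw [← hi, h.W, mem_rO h.inj, mem_rO h.inj]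
        simp [ro]
      | S => exact absurd (h.S j) hne
    · intro i
      cases i with
      | inl j => exact mem_rO h.inj
      | inr j => exact mem_rO h.inj
  · intro O _
    exact Finset.mem_univ _
  · intro a _
    funext j
    simp only [mem_rO h.inj, ro]
    simp
  · intro O hO
    rw [mem_ConsP] at hO
    obtain ⟨⟨h1, h2⟩, h3⟩ := hO
    ext ⟨t, d⟩
    by_cases ht : t ∈ rT p
    · obtain ⟨j, hj⟩ := mem_rT_iff.1 ht
      subst hj
      rw [mem_rO h.inj]
      cases d with
      | E =>
        have h4 := h2 (p j, .E) (mem_hs.2 (mem_rT j)) (by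
          rw [h.E]; intro h4; exact Dir.noConfusion (congrArg Prod.snd h4))
        rw [h.E] at h4
        simp only [ro, Bool.not_eq_true', decide_eq_false_iff_not]
        tauto
      | N => exact (h3 (Sum.inl j)).symm
      | W => simp [ro]
      | S => exact (h3 (Sum.inr j)).symm
    · constructor
      · intro h4
        exact absurd (mem_hs.1 ((Finset.filter_subset _ _) h4)) ht
      · intro h4
        exact absurd (mem_hs.1 (h1 h4)) ht
  · intro a _
    unfold W wt
    rw [Finset.prod_mul_distrib, hs, Finset.prod_product, rT,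
      Finset.prod_image (fun i _ j _ hij => h.inj hij), Finset.prod_image (fun i _ j _ hij => h.inj hij)]
    congr 1
    · refine Finset.prod_congr rfl fun j _ => ?_
      congr 1
      funext d
      simp only [mem_rO h.inj, Bool.decide_eq_true]
    · refine Finset.prod_congr rfl fun j _ => Finset.prod_congr rfl fun d _ => ?_
      simp only [mem_rO h.inj, Bool.decide_eq_true]

/-- **the network of a closed row with given arrows above and below** is the entry of the twisted row
transfer matrix -/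
theorem vec_row_T (h : ClosedRow p g) (d : Bool → ℂ) (β : Half τ → Bool → ℂ)
    (hE : ∀ j b, β (p j, .E) b = 1) (hW0 : ∀ b, β (p 0, .W) b = d b)
    (hW : ∀ j b, j ≠ 0 → β (p j, .W) b = 1) (s' s : Cfg (n + 1)) :
    vec (rT p) g c6 β (tbE p) (Sum.elim s' fun j => !s j) =
      T (n + 1) d ((Real.pi / 6 : ℝ) : ℂ) s' s * ((∏ j, β (p j, .N) (s' j)) * ∏ j, β (p j, .S) (!s j)) := by
  rw [vec_row h]
  have hd : ∀ f : Dir → ℂ, ∏ d, f d = f .E * (f .N * (f .W * f .S)) := by
    intro f
    have h : (Finset.univ : Finset Dir) = {Dir.E, Dir.N, Dir.W, Dir.S} := by decide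
    rw [h, Finset.prod_insert (by decide), Finset.prod_insert (by decide),
      Finset.prod_insert (by decide), Finset.prod_singleton]
  have hWp : ∀ a : Cfg (n + 1), ∏ j, β (p j, .W) (a j) = d (a 0) := by
    intro a
    rw [Finset.prod_eq_single_of_mem (0 : Fin (n + 1)) (Finset.mem_univ _) (fun j _ hj => hW j _ hj), hW0]
  have key : ∀ a : Cfg (n + 1), (∏ j, (tw c6 (ro s' s a j) * ∏ d, β (p j, d) (ro s' s a j d))) =
      (d (a 0) * ∏ j, L ((Real.pi / 6 : ℝ) : ℂ) (s' j) (s j) (a j) (nx a (a 0) j)) *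
          ((∏ j, β (p j, .N) (s' j)) * ∏ j, β (p j, .S) (!s j)) := by
    intro a
    rw [Finset.prod_mul_distrib]
    simp only [hd, ro, hE, one_mul]
    rw [Finset.prod_mul_distrib, Finset.prod_mul_distrib, hWp]
    have h3 : ∏ j, tw c6 (ro s' s a j) =
        ∏ j, L ((Real.pi / 6 : ℝ) : ℂ) (s' j) (s j) (a j) (nx a (a 0) j) :=
      Finset.prod_congr rfl fun j _ => tw_ro s' s a j
    rw [h3]
    ring
  simp only [key]
  rw [← Finset.sum_mul, ← T_sum]

end row

end Full.Net
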