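import Pool.Agent.Full.Def.Geo
import Pool.Agent.Full.Dict3.RowVec
import Pool.Agent.Full.SixV.HalfD

/-!
# The two sheets of a domain with an interior end: tiles, gluings, environment vectors
-/

set_option autoImplicit false

namespace Full.Slab
open SixV Finset Function Net

variable (D : Slab) (y : ℤ)

/-- the number of columns above `z` is `n + 1`, below `z` it is `n + 2` -/
def n : ℕ := (D.r - D.l - 1).toNat

lemma r_eq : D.r = D.l + D.n + 1 := by
  have := D.hlr
  unfold n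
  omega

/-- the tiles of the lower sheet -/
noncomputable def lowT : Finset ZT := (D.TL y).disjSum ∅

/-- the tiles of the upper sheet -/
noncomputable def upT : Finset ZT := (∅ : Finset (ℤ × ℤ)).disjSum (D.TU y)

/-- the gluing of the lower sheet, rows closed -/
noncomputable def gl : Half ZT → Half ZT := (zsurf D.l D.r D.l y D.b D.t).glue (D.lowT y)

/-- the gluing of the upper sheet, rows closed -/
noncomputable def gu : Half ZT → Half ZT := (zsurf D.l D.r D.l y D.b D.t).glue (D.upT y)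

variable {D y} {i j : ℤ}

lemma mem_lowT : (Sum.inl (i, j) : ZT) ∈ D.lowT y ↔
    (i, j) ∈ D.L ∨ ((D.l ≤ i ∧ i ≤ D.r) ∧ D.b ≤ j ∧ j < y) := by
  unfold lowT TL
  rw [Finset.inl_mem_disjSum, Finset.mem_union, mem_box, Int.lt_add_one_iff]

lemma inr_mem_lowT {t : ℤ × ℤ} : (Sum.inr t : ZT) ∉ D.lowT y := by
  unfold lowT
  rw [Finset.inr_mem_disjSum]
  exact Finset.notMem_empty _

lemma mem_upT : (Sum.inr (i, j) : ZT) ∈ D.upT y ↔
    (i, j) ∈ D.U ∨ ((D.l ≤ i ∧ i < D.r) ∧ y ≤ j ∧ j < D.t) := by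
  unfold upT TU
  rw [Finset.inr_mem_disjSum, Finset.mem_union, mem_box]

lemma inl_mem_upT {t : ℤ × ℤ} : (Sum.inl t : ZT) ∉ D.upT y := by
  unfold upT
  rw [Finset.inl_mem_disjSum]
  exact Finset.notMem_empty _

lemma T_eq : D.T y = D.lowT y ∪ D.upT y := by
  ext t
  rcases t with ⟨i, j⟩ | ⟨i, j⟩
  · rw [Finset.mem_union, mem_low, mem_lowT]
    exact ⟨Or.inl, fun h => h.resolve_right inl_mem_upT⟩
  · rw [Finset.mem_union, mem_up, mem_upT]
    exact ⟨Or.inr, fun h => h.resolve_left inr_mem_lowT⟩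

lemma low_up_disjoint : Disjoint (D.lowT y) (D.upT y) := by
  rw [Finset.disjoint_left]
  rintro (t | t) h h'
  · exact inl_mem_upT h'
  · exact inr_mem_lowT h

/-- conditions on the factors `F` of the half edges in the row rectangle: seam factors `d` below and
`dup * d` above, no other factors on glued sides -/
structure Fac (D : Slab) (d : Bool → ℂ) (F : Half ZT → Bool → ℂ) : Prop where
  lowE : ∀ i j b, D.l ≤ i → i ≤ D.r → D.b ≤ j → j < D.t → F (.inl (i, j), .E) b = 1
  lowW0 : ∀ j b, D.b ≤ j → j < D.t → F (.inl (D.l, j), .W) b = d b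
  lowW : ∀ i j b, D.l < i → i ≤ D.r → D.b ≤ j → j < D.t → F (.inl (i, j), .W) b = 1
  lowN : ∀ i j b, D.l ≤ i → i ≤ D.r → D.b ≤ j → j < D.t → F (.inl (i, j), .N) b = 1
  lowS : ∀ i j b, D.l ≤ i → i ≤ D.r → D.b < j → j < D.t → F (.inl (i, j), .S) b = 1
  upE : ∀ i j b, D.l ≤ i → i < D.r → D.b ≤ j → j < D.t → F (.inr (i, j), .E) b = 1
  upW0 : ∀ j b, D.b ≤ j → j < D.t → F (.inr (D.l, j), .W) b = dup b * d b
  upW : ∀ i j b, D.l < i → i < D.r → D.b ≤ j → j < D.t → F (.inr (i, j), .W) b = 1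
  upN : ∀ i j b, D.l ≤ i → i < D.r → D.b ≤ j → j + 1 < D.t → F (.inr (i, j), .N) b = 1
  upS : ∀ i j b, D.l ≤ i → i < D.r → D.b ≤ j → j < D.t → F (.inr (i, j), .S) b = 1

variable (D)

/-- the open upper sides of the lower sheet -/
def topE (y : ℤ) (j : Fin (D.n + 2)) : Half ZT := (.inl (D.l + j, y - 1), .N)

/-- the open lower sides of the upper sheet -/
def botE (y : ℤ) (j : Fin (D.n + 1)) : Half ZT := (.inr (D.l + j, y), .S)

/-- the environment below the line `y` -/
noncomputable def vlow (F : Half ZT → Bool → ℂ) (y : ℤ) : Cfg (D.n + 2) → ℂ := fun s =>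
  vec (D.lowT y) (D.gl y) c6 F (D.topE y) s

/-- the environment above the line `y` -/
noncomputable def vup (F : Half ZT → Bool → ℂ) (y : ℤ) : Cfg (D.n + 1) → ℂ := fun s =>
  vec (D.upT y) (D.gu y) c6 F (D.botE y) fun j => !s j

end Full.Slab
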