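import Pool.Agent.Full.Dict3.Zline

/-!
# The network of a slab domain with an interior end is an amplitude of the six vertex rows

`net (D.T y) (D.gc x y) c6 (D.bz x y F) = sixFD (n + 1) d O I (x - l) (t - 1 - y) (y - 1 - b)` for every
interior position `l ≤ x ≤ r`, `b < y < t`: the vectors `O = vup F (t - 1)`, `I = vlow F (b + 1)` do not
depend on `x`, `y`.
-/

set_option autoImplicit false

namespace Full
open SixV Finset Function Net Matrix Eng

namespace Slab
variable {D : Slab} {x y : ℤ}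

/-- **peeling `m` lower rows** -/
theorem vlow_pow {d : Bool → ℂ} {F : Half ZT → Bool → ℂ} (hF : Fac D d F) (hb : D.b < y) :
    ∀ m : ℕ, y + m ≤ D.t → D.vlow F (y + m) =
      SixV.T (D.n + 2) d ((Real.pi / 6 : ℝ) : ℂ) ^ m *ᵥ D.vlow F y
  | 0, _ => by simp
  | (m + 1), ht => by
      push_cast at ht
      have h1 : y + ((m + 1 : ℕ) : ℤ) = y + m + 1 := by push_cast; ring
      rw [h1, vlow_succ (y := y + m) hF (by omega) (by omega), vlow_pow hF hb m (by omega),
        Matrix.mulVec_mulVec, ← pow_succ']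

/-- **X3a**: the network with the end `z` at the column `k` -/
theorem net_six_k {d : Bool → ℂ} (hd : SixV.Tw d) {F : Half ZT → Bool → ℂ} (hF : Fac D d F)
    (hb : D.b < y) (ht : y < D.t) (k : Fin (D.n + 2)) :
    net (D.T y) (D.gc (D.l + k) y) c6 (D.bz (D.l + k) y F) =
      sixFD (D.n + 1) d (D.vup F (D.t - 1)) (D.vlow F (D.b + 1)) k (D.t - 1 - y).toNat
        (y - 1 - D.b).toNat := by
  have h1 : D.vlow F y = SixV.T (D.n + 2) d ((Real.pi / 6 : ℝ) : ℂ) ^ (y - 1 - D.b).toNat *ᵥ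
      D.vlow F (D.b + 1) := by
    have h := vlow_pow (y := D.b + 1) hF (by omega) (y - 1 - D.b).toNat (by omega)
    rw [show D.b + 1 + (((y - 1 - D.b).toNat : ℕ) : ℤ) = y by omega] at h
    exact h
  have h2 : D.vup F y = D.vup F (D.t - 1) ᵥ* SixV.T (D.n + 1) (fun b => dup b * d b)
      ((Real.pi / 6 : ℝ) : ℂ) ^ (D.t - 1 - y).toNat := by
    have h := vup_pow (y := y) hF hb.le (D.t - 1 - y).toNat (by omega)
    rw [show y + (((D.t - 1 - y).toNat : ℕ) : ℤ) = D.t - 1 by omega] at h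
    exact h
  rw [net_Wx hd hb ht, h1, h2]
  unfold sixFD
  rw [← Matrix.dotProduct_mulVec, Matrix.mulVec_mulVec, Matrix.mulVec_mulVec, Matrix.mul_assoc]

/-- **X3a** in the coordinates of the plane -/
theorem net_six {d : Bool → ℂ} (hd : SixV.Tw d) {F : Half ZT → Bool → ℂ} (hF : Fac D d F)
    (hl : D.l ≤ x) (hr : x ≤ D.r) (hb : D.b < y) (ht : y < D.t) :
    net (D.T y) (D.gc x y) c6 (D.bz x y F) =
      sixFD (D.n + 1) d (D.vup F (D.t - 1)) (D.vlow F (D.b + 1)) (x - D.l).toNat (D.t - 1 - y).toNat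
        (y - 1 - D.b).toNat := by
  have h1 := D.r_eq
  have h := net_six_k hd hF hb ht ⟨(x - D.l).toNat, by omega⟩
  have h2 : D.l + (((⟨(x - D.l).toNat, by omega⟩ : Fin (D.n + 2)) : ℕ) : ℤ) = x := by
    simp only
    omega
  rw [h2] at h
  exact h

end Slab
end Full
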