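import Pool.Agent.Full.Net.Net
import Pool.Agent.Full.Net.Cut

/-!
# Cutting a region of tiles

`net_join`: the network of a region which consists of two parts `T₁`, `T₂`, joined along the pairs
`e₁ j`, `e₂ j` of half edges, is the sum over the arrows on these pairs of the product of the networks
of the parts.
-/

set_option autoImplicit false

namespace Full
open Finset Function

noncomputable section

variable {τ : Type*} [DecidableEq τ]

/-- the restriction of a gluing to the tiles of `T₁` -/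
def res (T₁ : Finset τ) (g : Half τ → Half τ) (x : Half τ) : Half τ :=
  if x.1 ∈ T₁ ∧ (g x).1 ∈ T₁ then g x else x

lemma res_of_mem {T₁ : Finset τ} {g : Half τ → Half τ} {x : Half τ} (h : x.1 ∈ T₁)
    (h' : (g x).1 ∈ T₁) : res T₁ g x = g x := if_pos ⟨h, h'⟩

lemma res_of_notMem {T₁ : Finset τ} {g : Half τ → Half τ} {x : Half τ} (h' : (g x).1 ∉ T₁) :
    res T₁ g x = x := if_neg fun h => h' h.2

lemma res_of_notMem' {T₁ : Finset τ} {g : Half τ → Half τ} {x : Half τ} (h' : x.1 ∉ T₁) :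
    res T₁ g x = x := if_neg fun h => h' h.1

lemma res_res {T₁ T₂ : Finset τ} (h : T₂ ⊆ T₁) (g : Half τ → Half τ) :
    res T₂ (res T₁ g) = res T₂ g := by
  funext x
  by_cases hx : x.1 ∈ T₂
  · by_cases h1 : (g x).1 ∈ T₁
    · have e : res T₁ g x = g x := res_of_mem (h hx) h1
      by_cases h2 : (g x).1 ∈ T₂
      · rw [res_of_mem hx (by rwa [e]), e, res_of_mem hx h2]
      · rw [res_of_notMem (by rwa [e]), res_of_notMem h2]
    · have e : res T₁ g x = x := res_of_notMem h1
      rw [res_of_mem hx (by rwa [e]), e, res_of_notMem fun h2 => h1 (h h2)]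
  · rw [res_of_notMem' hx, res_of_notMem' hx]

/-- the restriction of the gluing of a surface -/
lemma res_glue {T T₁ : Finset τ} (h : T₁ ⊆ T) (S : Surf τ) : res T₁ (S.glue T) = S.glue T₁ := by
  funext x
  obtain ⟨t, d⟩ := x
  by_cases ht : t ∈ T₁
  · cases h1 : S.nb d t with
    | none =>
      have e1 : ∀ T' : Finset τ, S.glue T' (t, d) = (t, d) := fun T' => by
        simp only [Surf.glue, h1]
      rw [e1, res_of_mem ht (by rw [e1]; exact ht), e1]
    | some t' =>
      by_cases h2 : t' ∈ T₁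
      · have e1 : ∀ T' : Finset τ, T₁ ⊆ T' → S.glue T' (t, d) = (t', d.opp) := fun T' hT' =>
          Surf.glue_of_mem h1 (hT' ht) (hT' h2)
        rw [e1 T₁ subset_rfl, res_of_mem ht (by rw [e1 T h]; exact h2), e1 T h]
      · have e1 : S.glue T₁ (t, d) = (t, d) := by
          simp only [Surf.glue, h1, h2, and_false, if_false]
        rw [e1]
        by_cases h3 : t' ∈ T
        · have e2 : S.glue T (t, d) = (t', d.opp) := Surf.glue_of_mem h1 (h ht) h3
          exact res_of_notMem (by rw [e2]; exact h2)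
        · have e2 : S.glue T (t, d) = (t, d) := by
            simp only [Surf.glue, h1, h3, and_false, if_false]
          rw [res_of_mem ht (by rw [e2]; exact ht), e2]
  · rw [res_of_notMem' ht, Surf.glue_of_notMem (x := (t, d)) ht]

lemma Glu.res {T T₁ : Finset τ} {g : Half τ → Half τ} (hG : Glu T g) : Glu T₁ (res T₁ g) where
  inv := fun x => by
    by_cases h : x.1 ∈ T₁ ∧ (g x).1 ∈ T₁
    · rw [res_of_mem h.1 h.2, res_of_mem h.2 (by rw [hG.inv]; exact h.1), hG.inv]
    · have e : Full.res T₁ g x = x := if_neg h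
      rw [e, e]
  mem := fun x hx => by
    by_cases h : (g x).1 ∈ T₁
    · rw [res_of_mem hx h]; exact h
    · rw [res_of_notMem h]; exact hx
  out := fun x hx => res_of_notMem' hx

lemma hs_union (T₁ T₂ : Finset τ) : hs (T₁ ∪ T₂) = hs T₁ ∪ hs T₂ := by
  ext x
  simp only [mem_hs, mem_union]

omit [DecidableEq τ] in
lemma disjoint_hs {T₁ T₂ : Finset τ} (h : Disjoint T₁ T₂) : Disjoint (hs T₁) (hs T₂) := by
  rw [Finset.disjoint_left]
  intro x h1 h2
  exact (Finset.disjoint_left.1 h) (mem_hs.1 h1) (mem_hs.1 h2)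

lemma netres_eq (T₁ : Finset τ) (g : Half τ → Half τ) : Net.res (hs T₁) g = res T₁ g := by
  funext x
  unfold Net.res res
  simp only [mem_hs]

/-- the weight of an arrow configuration -/
def netw (T : Finset τ) (K : ℝ) (F : Half τ → Bool → ℂ) (O : Finset (Half τ)) : ℂ :=
  (∏ t ∈ T, tw K (fun d => decide ((t, d) ∈ O))) * ∏ x ∈ hs T, F x (decide (x ∈ O))

lemma net_eq_cons (T : Finset τ) (g : Half τ → Half τ) (K : ℝ) (F : Half τ → Bool → ℂ) :
    net T g K F = ∑ O ∈ Net.Cons (hs T) g, netw T K F O := by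
  classical
  unfold net
  refine sum_congr ?_ fun _ _ => rfl
  ext O
  rw [mem_filter, mem_powerset, Net.mem_Cons]
  exact Iff.rfl

lemma netw_inter (T : Finset τ) (K : ℝ) (F : Half τ → Bool → ℂ) (O : Finset (Half τ)) :
    netw T K F (O ∩ hs T) = netw T K F O := by
  unfold netw
  have e : ∀ x ∈ hs T, decide (x ∈ O ∩ hs T) = decide (x ∈ O) := fun x hx => by
    rw [decide_eq_decide, mem_inter]
    exact ⟨fun h => h.1, fun h => ⟨h, hx⟩⟩
  congr 1
  · refine prod_congr rfl fun t ht => ?_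
    congr 1
    funext d
    exact e (t, d) (mem_hs.2 ht)
  · exact prod_congr rfl fun x hx => by rw [e x hx]

lemma netw_union {T₁ T₂ : Finset τ} (h : Disjoint T₁ T₂) (K : ℝ) (F : Half τ → Bool → ℂ)
    (O : Finset (Half τ)) : netw (T₁ ∪ T₂) K F O = netw T₁ K F O * netw T₂ K F O := by
  unfold netw
  rw [hs_union, prod_union h, prod_union (disjoint_hs h)]
  ring

/-- fixed arrows on the half edges `e j` -/
def pin {ι : Type*} [Fintype ι] (e : ι → Half τ) (s : ι → Bool) (F : Half τ → Bool → ℂ)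
    (x : Half τ) (b : Bool) : ℂ := F x b * ∏ j, (if e j = x then (if b = s j then 1 else 0) else 1)

lemma netw_pin {ι : Type*} [Fintype ι] {T : Finset τ} {e : ι → Half τ} (he : ∀ j, (e j).1 ∈ T)
    (s : ι → Bool) (K : ℝ) (F : Half τ → Bool → ℂ) (O : Finset (Half τ)) :
    netw T K (pin e s F) O = if ∀ j, (e j ∈ O ↔ s j = true) then netw T K F O else 0 := by
  classical
  unfold netw pin
  rw [prod_mul_distrib, prod_comm]
  have h1 : ∀ j, ∏ x ∈ hs T, (if e j = x then (if decide (x ∈ O) = s j then (1 : ℂ) else 0) else 1) =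
      if (e j ∈ O ↔ s j = true) then 1 else 0 := by
    intro j
    rw [prod_ite_eq, if_pos (mem_hs.2 (he j))]
    have h2 : decide (e j ∈ O) = s j ↔ (e j ∈ O ↔ s j = true) := by
      cases s j <;> simp
    simp only [h2]
  simp only [h1]
  by_cases h : ∀ j, (e j ∈ O ↔ s j = true)
  · rw [if_pos h, prod_eq_one fun j _ => if_pos (h j), mul_one]
  · rw [if_neg h]
    push Not at h
    obtain ⟨j, hj⟩ := h
    rw [prod_eq_zero (mem_univ j), mul_zero, mul_zero]
    rw [if_neg]
    tauto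

lemma net_pin {ι : Type*} [Fintype ι] {T : Finset τ} {g : Half τ → Half τ} {e : ι → Half τ}
    (he : ∀ j, (e j).1 ∈ T) (s : ι → Bool) (K : ℝ) (F : Half τ → Bool → ℂ) :
    net T g K (pin e s F) = ∑ O ∈ Net.ConsP (hs T) g e s, netw T K F O := by
  rw [net_eq_cons]
  unfold Net.ConsP
  rw [sum_filter]
  exact sum_congr rfl fun O _ => netw_pin he s K F O

/-- **cutting a region** -/
theorem net_join {ι : Type*} [Fintype ι] [DecidableEq ι] {T₁ T₂ : Finset τ} (hd : Disjoint T₁ T₂)
    {g : Half τ → Half τ} (hG : Glu (T₁ ∪ T₂) g) {e₁ e₂ : ι → Half τ} (he₁ : ∀ j, (e₁ j).1 ∈ T₁)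
    (he₂ : ∀ j, (e₂ j).1 ∈ T₂) (hg : ∀ j, g (e₁ j) = e₂ j)
    (hall : ∀ x, x.1 ∈ T₁ → (g x).1 ∈ T₂ → ∃ j, e₁ j = x) (K : ℝ) (F : Half τ → Bool → ℂ) :
    net (T₁ ∪ T₂) g K F = ∑ s : ι → Bool, net T₁ (res T₁ g) K (pin e₁ s F) *
      net T₂ (res T₂ g) K (pin e₂ (fun j => !s j) F) := by
  have hc : Net.Cut (hs T₁) (hs T₂) g e₁ e₂ := by
    refine ⟨disjoint_hs hd, hG.inv, fun x hx => ?_, fun i => mem_hs.2 (he₁ i),
      fun i => mem_hs.2 (he₂ i), hg, fun x hx hx' => hall x (mem_hs.1 hx) (mem_hs.1 hx')⟩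
    rw [← hs_union] at hx ⊢
    exact mem_hs.2 (hG.mem x (mem_hs.1 hx))
  rw [net_eq_cons, hs_union]
  have e : ∀ O ∈ Net.Cons (hs T₁ ∪ hs T₂) g, netw (T₁ ∪ T₂) K F O =
      netw T₁ K F (O ∩ hs T₁) * netw T₂ K F (O ∩ hs T₂) := fun O _ => by
    rw [netw_union hd, netw_inter, netw_inter]
  rw [sum_congr rfl e, hc.sum_eq (netw T₁ K F) (netw T₂ K F)]
  refine sum_congr rfl fun s _ => ?_
  rw [net_pin he₁, net_pin he₂, netres_eq, netres_eq]

/-- the network depends only on the gluing and on the factors in the region -/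
lemma net_congr {T : Finset τ} {g g' : Half τ → Half τ} (hg : ∀ x, x.1 ∈ T → g' x = g x)
    {K : ℝ} {F F' : Half τ → Bool → ℂ} (hF : ∀ x, x.1 ∈ T → ∀ b, F' x b = F x b) :
    net T g' K F' = net T g K F := by
  rw [net_eq_cons, net_eq_cons]
  refine sum_congr ?_ fun O _ => ?_
  · ext O
    rw [Net.mem_Cons, Net.mem_Cons]
    refine and_congr_right fun _ => forall_congr' fun x => ?_
    refine forall_congr' fun hx => ?_
    rw [hg x (mem_hs.1 hx)]
  · unfold netw
    congr 1
    exact prod_congr rfl fun x hx => hF x (mem_hs.1 hx) _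

/-- two independent sets of fixed arrows -/
lemma pin_sum {ι κ : Type*} [Fintype ι] [Fintype κ] (e : ι → Half τ) (c : κ → Half τ) (s : ι → Bool)
    (t : κ → Bool) (F : Half τ → Bool → ℂ) :
    pin (Sum.elim e c) (Sum.elim s t) F = pin e s (pin c t F) := by
  funext x b
  unfold pin
  rw [Fintype.prod_sum_type]
  simp only [Sum.elim_inl, Sum.elim_inr]
  rw [← mul_assoc]
  exact mul_right_comm _ _ _

end

end Full
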