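import Pool.Agent.Full.Dict3.Pieces

/-!
# Peeling the rows of the lower sheet
-/

set_option autoImplicit false

namespace Full
open SixV Finset Function Net Matrix

/-- the gluing depends only on the neighbours inside the region -/
lemma Surf.glue_congr {τ : Type*} [DecidableEq τ] {S S' : Surf τ} {T : Finset τ}
    (hr : ∀ t ∈ T, ∀ t' ∈ T, t' ∈ S.nb .E t ↔ t' ∈ S'.nb .E t)
    (hu : ∀ t ∈ T, ∀ t' ∈ T, t' ∈ S.nb .N t ↔ t' ∈ S'.nb .N t) : S.glue T = S'.glue T := by
  have h : ∀ d, ∀ t ∈ T, ∀ t' ∈ T, t' ∈ S.nb d t ↔ t' ∈ S'.nb d t := by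
    intro d
    cases d with
    | E => exact hr
    | N => exact hu
    | W => intro t ht t' ht'; rw [Surf.mem_nb, Surf.mem_nb (S := S')]; exact hr t' ht' t ht
    | S => intro t ht t' ht'; rw [Surf.mem_nb, Surf.mem_nb (S := S')]; exact hu t' ht' t ht
  funext x
  by_cases h1 : S.glue T x = x
  · by_contra h2
    rw [h1] at h2
    obtain ⟨t', ht1, ht2, ht3⟩ := Surf.glue_ne_iff.1 (Ne.symm h2)
    exact Surf.glue_ne_iff.2 ⟨t', (h _ _ ht2 _ ht3).2 ht1, ht2, ht3⟩ h1
  · obtain ⟨t', ht1, ht2, ht3⟩ := Surf.glue_ne_iff.1 h1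
    have h3 : S.glue T x = (t', x.2.opp) := Surf.glue_of_mem ht1 ht2 ht3
    have h4 : S'.glue T x = (t', x.2.opp) := Surf.glue_of_mem ((h _ _ ht2 _ ht3).1 ht1) ht2 ht3
    rw [h3, h4]

namespace Slab
variable {D : Slab} {x y y' : ℤ}

lemma low_u {t t' : ZT} (hb : D.b ≤ y) (hy : y ≤ y') (ht : y' ≤ D.t) (h : t ∈ D.lowT y)
    (h' : t' ∈ D.lowT y) : t' ∈ (zsurf D.l D.r x y' D.b D.t).nb .N t ↔
      ∃ i j, t = .inl (i, j) ∧ t' = .inl (i, j + 1) := by
  rcases t with ⟨i, j⟩ | t
  swap
  · exact absurd h inr_mem_lowT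
  rcases t' with ⟨i', j'⟩ | t'
  swap
  · exact absurd h' inr_mem_lowT
  rw [mem_lowT] at h h'
  by_cases h1 : j = y' - 1 ∧ D.l ≤ i ∧ i ≤ D.r
  · -- the tile `(i, y' - 1)`: only for `y' = y`, and then `(i, y)` is not in the sheet
    have h2 : (i, j) ∉ D.L ∨ (i, j + 1) ∉ D.L := by
      by_cases h3 : y' = y
      · exact Or.inr (D.hL _ _ (by omega) (by omega) (by omega) (by omega))
      · exact Or.inl (D.hL _ _ (by omega) (by omega) (by omega) (by omega))
    constructor
    · intro h3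
      exfalso
      have h4 : (zsurf D.l D.r x y' D.b D.t).nb .N (.inl (i, j)) =
          if i < x ∧ i < D.r then some (.inr (i, y')) else if x < i ∧ D.l < i then
            some (.inr (i - 1, y')) else none := by
        show (if j = y' - 1 ∧ D.l ≤ i ∧ i ≤ D.r then _ else _) = _
        rw [if_pos h1]
      rw [h4, Option.mem_def] at h3
      split_ifs at h3 <;> simp at h3
    · rintro ⟨i₁, j₁, h3, h4⟩
      exfalso
      obtain ⟨rfl, rfl⟩ := Prod.mk.inj (Sum.inl.inj h3)
      obtain ⟨rfl, rfl⟩ := Prod.mk.inj (Sum.inl.inj h4)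
      rcases h2 with h2 | h2
      · rcases h with h | h
        · exact h2 h
        · by_cases h5 : y' = y
          · rcases h' with h' | h'
            · exact D.hL _ _ (by omega) (by omega) (by omega) (by omega) h'
            · omega
          · omega
      · rcases h' with h' | h'
        · exact h2 h'
        · rcases h with h | h
          · exact D.hL _ _ (by omega) (by omega) (by omega) (by omega) h
          · omega
  · rw [zs_N_low h1, Option.mem_def]
    constructor
    · intro h3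
      exact ⟨i, j, rfl, (Option.some.inj h3).symm⟩
    · rintro ⟨i₁, j₁, h3, h4⟩
      obtain ⟨rfl, rfl⟩ := Prod.mk.inj (Sum.inl.inj h3)
      rw [h4]

lemma low_r {t : ZT} (hb : D.b ≤ y) (hy : y ≤ y') (ht : y' ≤ D.t) (h : t ∈ D.lowT y) :
    (zsurf D.l D.r x y' D.b D.t).nb .E t = (zsurf D.l D.r D.l y D.b D.t).nb .E t := by
  rcases t with ⟨i, j⟩ | t
  swap
  · exact absurd h inr_mem_lowT
  rw [mem_lowT] at h
  show (if D.b ≤ j ∧ j < y' then _ else _) = (if D.b ≤ j ∧ j < y then _ else _)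
  by_cases h1 : D.b ≤ j ∧ j < y
  · rw [if_pos h1, if_pos ⟨h1.1, by omega⟩]
  · rw [if_neg h1]
    by_cases h2 : D.b ≤ j ∧ j < y'
    · rw [if_pos h2]
      have h3 : i < D.l - 1 ∨ D.r + 1 < i := by
        by_contra h4
        rcases h with h | h
        · exact D.hL i j (by omega) (by omega) (by omega) (by omega) h
        · omega
      have := D.hlr
      rw [if_neg (by omega), if_neg (by omega)]
    · rw [if_neg h2]

/-- **the lower sheet does not depend on the position of `z`** -/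
theorem res_low (hb : D.b ≤ y) (hy : y ≤ y') (ht : y' ≤ D.t) {T : Finset ZT} (hT : D.lowT y ⊆ T) :
    res (hs (D.lowT y)) ((zsurf D.l D.r x y' D.b D.t).glue T) = D.gl y := by
  rw [res_glue _ hT]
  refine Surf.glue_congr (fun t h t' h' => ?_) (fun t h t' h' => ?_)
  · rw [low_r hb hy ht h]
  · rw [low_u hb hy ht h h', low_u hb le_rfl (by omega) h h']

/-! ### the row `y` -/

/-- the tiles of a lower row -/
def pl (D : Slab) (y : ℤ) (j : Fin (D.n + 2)) : ZT := .inl (D.l + j, y)

lemma pl_inj : Injective (D.pl y) := by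
  intro i j h
  have h1 := (Prod.mk.inj (Sum.inl.inj h)).1
  apply Fin.ext
  omega

lemma col_range (j : Fin (D.n + 2)) : D.l ≤ D.l + j ∧ D.l + (j : ℤ) ≤ D.r := by
  have := D.r_eq
  have := j.2
  omega

lemma lowT_succ (hb : D.b ≤ y) : D.lowT (y + 1) = D.lowT y ∪ rT (D.pl y) := by
  ext t
  rcases t with ⟨i, j⟩ | t
  · rw [Finset.mem_union, mem_lowT, mem_lowT, mem_rT_iff]
    constructor
    · rintro (h | h)
      · exact Or.inl (Or.inl h)
      · by_cases h1 : j < y
        · exact Or.inl (Or.inr ⟨h.1, h.2.1, h1⟩)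
        · right
          have := D.r_eq
          refine ⟨⟨(i - D.l).toNat, by omega⟩, ?_⟩
          unfold pl
          congr 2
          · simp only; omega
          · omega
    · rintro ((h | h) | ⟨k, h⟩)
      · exact Or.inl h
      · exact Or.inr ⟨h.1, h.2.1, by omega⟩
      · obtain ⟨h1, h2⟩ := Prod.mk.inj (Sum.inl.inj h)
        have := D.col_range k
        right
        omega
  · rw [Finset.mem_union, mem_rT_iff]
    constructor
    · intro h; exact absurd h inr_mem_lowT
    · rintro (h | ⟨k, h⟩)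
      · exact absurd h inr_mem_lowT
      · unfold pl at h
        cases h

lemma low_disj (hb : D.b ≤ y) (ht : y ≤ D.t) : Disjoint (D.lowT y) (rT (D.pl y)) := by
  rw [Finset.disjoint_left]
  intro t h h'
  obtain ⟨k, rfl⟩ := mem_rT_iff.1 h'
  unfold pl at h
  rw [mem_lowT] at h
  have := D.col_range k
  rcases h with h | h
  · exact D.hL _ _ (by omega) (by omega) (by omega) (by omega) h
  · omega

lemma pl_mem (hb : D.b ≤ y) (j : Fin (D.n + 2)) : D.pl y j ∈ D.lowT (y + 1) := by
  rw [lowT_succ hb, Finset.mem_union]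
  exact Or.inr (mem_rT j)

lemma nxt_val (j : Fin (D.n + 2)) : (D.l + (nxt j : ℕ) : ℤ) =
    if D.l + (j : ℤ) = D.r then D.l else D.l + j + 1 := by
  have h1 := D.r_eq
  have h2 := j.2
  unfold nxt
  by_cases h : (j : ℕ) + 1 < D.n + 1 + 1
  · rw [dif_pos h, if_neg (by omega)]
    push_cast
    ring
  · rw [dif_neg h, if_pos (by omega)]
    simp

lemma gl_E (hb : D.b ≤ y) (j : Fin (D.n + 2)) :
    D.gl (y + 1) (D.pl y j, .E) = (D.pl y (nxt j), .W) := by
  refine Surf.glue_of_mem ?_ (pl_mem hb j) (pl_mem hb _)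
  unfold pl
  rw [Option.mem_def]
  have h1 := D.col_range j
  have h2 := D.nxt_val j
  by_cases h3 : D.l + (j : ℤ) = D.r
  · rw [if_pos h3] at h2
    rw [h2, h3, zs_E_low_end ⟨hb, by omega⟩]
  · rw [if_neg h3] at h2
    rw [h2, zs_E_low h3 (by omega)]

lemma gl_N (hb : D.b ≤ y) (j : Fin (D.n + 2)) :
    D.gl (y + 1) (D.pl y j, .N) = (D.pl y j, .N) := by
  by_contra h
  obtain ⟨t', h1, h2, h3⟩ := Surf.glue_ne_iff.1 h
  have h4 := D.col_range j
  rcases t' with t' | t'
  · have h5 : (zsurf D.l D.r D.l (y + 1) D.b D.t).nb .N (D.pl y j) =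
        if D.l + (j : ℤ) < D.l ∧ D.l + (j : ℤ) < D.r then some (.inr (D.l + j, y + 1)) else
          if D.l < D.l + (j : ℤ) ∧ D.l < D.l + (j : ℤ) then some (.inr (D.l + j - 1, y + 1)) else none := by
      show (if y = y + 1 - 1 ∧ D.l ≤ D.l + (j : ℤ) ∧ D.l + (j : ℤ) ≤ D.r then _ else _) = _
      rw [if_pos ⟨by omega, h4⟩]
    simp only at h1
    rw [h5, Option.mem_def] at h1
    split_ifs at h1 <;> simp at h1
  · exact absurd h3 inr_mem_lowT

lemma gl_S (hb : D.b < y) (j : Fin (D.n + 2)) :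
    D.gl (y + 1) (D.pl y j, .S) = D.topE y j := by
  have h4 := D.col_range j
  refine Surf.glue_of_mem (t' := .inl (D.l + j, y - 1)) ?_ (pl_mem hb.le j) ?_
  · unfold pl
    rw [zs_S_low (by omega)]
    rfl
  · rw [mem_lowT]
    right
    omega

theorem gl_cut (hb : D.b < y) (ht : y ≤ D.t) :
    Cut (hs (D.lowT y)) (hs (rT (D.pl y))) (D.gl (y + 1)) (D.topE y) fun j => (D.pl y j, .S) where
  disj := hs_disjoint (low_disj hb.le ht)
  inv := Surf.glue_glue
  clo := by
    intro x hx
    rw [← hs_union, ← lowT_succ hb.le, mem_hs] at hx ⊢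
    exact Surf.glue_mem hx
  mem₁ := by
    intro j
    have := D.col_range j
    rw [mem_hs]
    unfold topE
    rw [mem_lowT]
    right
    omega
  mem₂ := fun j => mem_hs.2 (mem_rT j)
  glue := by
    intro j
    rw [← gl_S hb, gl, Surf.glue_glue]
  all := by
    intro x hx hx'
    obtain ⟨k, hk⟩ := mem_rT_iff.1 (mem_hs.1 hx')
    have h1 : ∀ k', x.1 ≠ D.pl y k' := by
      intro k' h2
      exact (Finset.disjoint_left.1 (low_disj hb.le ht)) (mem_hs.1 hx) (h2 ▸ mem_rT k')
    have h2 : D.gl (y + 1) (D.gl (y + 1) x) = x := Surf.glue_glue x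
    have h3 : D.gl (y + 1) x = (D.pl y k, (D.gl (y + 1) x).2) := Prod.ext hk rfl
    rw [h3] at h2
    cases h4 : (D.gl (y + 1) x).2 with
    | E =>
      rw [h4, gl_E hb.le] at h2
      exact absurd (congrArg Prod.fst h2).symm (h1 _)
    | W =>
      obtain ⟨i, hi⟩ := nxt_surj k
      rw [h4, ← hi, ← gl_E hb.le, gl, Surf.glue_glue] at h2
      exact absurd (congrArg Prod.fst h2).symm (h1 _)
    | N =>
      rw [h4, gl_N hb.le] at h2
      exact absurd (congrArg Prod.fst h2).symm (h1 _)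
    | S =>
      rw [h4, gl_S hb] at h2
      exact ⟨k, h2⟩

theorem row_low (hb : D.b < y) (ht : y ≤ D.t) :
    ClosedRow (D.pl y) (res (hs (rT (D.pl y))) (D.gl (y + 1))) where
  inj := pl_inj
  E := fun j => by
    rw [res_of_mem (mem_hs.2 (mem_rT j)) (by rw [gl_E hb.le]; exact mem_hs.2 (mem_rT _)), gl_E hb.le]
  W := fun j => by
    have h : D.gl (y + 1) (D.pl y (nxt j), .W) = (D.pl y j, .E) := by
      rw [← gl_E hb.le, gl, Surf.glue_glue]
    rw [res_of_mem (mem_hs.2 (mem_rT _)) (by rw [h]; exact mem_hs.2 (mem_rT _)), h]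
  N := fun j => by
    rw [res_of_mem (mem_hs.2 (mem_rT j)) (by rw [gl_N hb.le]; exact mem_hs.2 (mem_rT _)), gl_N hb.le]
  S := fun j => by
    refine res_of_notMem ?_
    rw [gl_S hb]
    intro h
    exact (Finset.disjoint_left.1 (hs_disjoint (low_disj hb.le ht))) ((gl_cut hb ht).mem₁ j) h

/-- **peeling a lower row** -/
theorem vlow_succ {d : Bool → ℂ} {F : Half ZT → Bool → ℂ} (hF : Fac D d F) (hb : D.b < y)
    (ht : y < D.t) : D.vlow F (y + 1) =
      SixV.T (D.n + 2) d ((Real.pi / 6 : ℝ) : ℂ) *ᵥ D.vlow F y := by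
  funext s'
  have h1 : D.topE (y + 1) = fun j => (D.pl y j, Dir.N) := by
    funext j
    unfold topE pl
    rw [show y + 1 - 1 = y by omega]
  have h2 := vec_join (low_disj hb.le ht.le) (gl_cut hb ht.le) (e' := fun j => (D.pl y j, Dir.N))
    (fun j => mem_rT j) c6 F s'
  rw [← lowT_succ hb.le] at h2
  unfold vlow
  rw [h1, h2]
  show _ = ∑ s, SixV.T (D.n + 2) d ((Real.pi / 6 : ℝ) : ℂ) s' s * _
  refine Finset.sum_congr rfl fun s _ => ?_
  have h3 : res (hs (D.lowT y)) (D.gl (y + 1)) = D.gl y :=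
    res_low hb.le (by omega) (by omega) (by rw [lowT_succ hb.le]; exact Finset.subset_union_left)
  have h4 := vec_row_T (row_low hb ht.le) d F
    (fun j b => hF.lowE _ _ b (D.col_range j).1 (D.col_range j).2 hb.le ht)
    (fun b => by
      have := hF.lowW0 y b hb.le ht
      simpa [pl] using this)
    (fun j b hj => by
      have h5 : 0 < (j : ℕ) := Nat.pos_of_ne_zero fun h => hj (Fin.ext h)
      exact hF.lowW _ _ b (by have := D.col_range j; omega) (D.col_range j).2 hb.le ht) s' s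
  have h5 : ∀ j, F (D.pl y j, .N) (s' j) = 1 := fun j =>
    hF.lowN _ _ _ (D.col_range j).1 (D.col_range j).2 hb.le ht
  have h6 : ∀ j, F (D.pl y j, .S) (!s j) = 1 := fun j =>
    hF.lowS _ _ _ (D.col_range j).1 (D.col_range j).2 hb ht
  simp only [h5, h6, Finset.prod_const_one, mul_one] at h4
  rw [h3, mul_comm]
  congr 1

end Slab
end Full
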