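import Pool.Agent.Full.Dict3.Low

/-!
# Peeling the rows of the upper sheet
-/

set_option autoImplicit false

namespace Full
open SixV Finset Function Net Matrix

lemma Net.vec_swap {τ : Type*} [DecidableEq τ] {ι κ : Type*} [Fintype ι] [Fintype κ] (T : Finset τ)
    (g : Half τ → Half τ) (c : ℂ) (β : Half τ → Bool → ℂ) (e : ι → Half τ) (e' : κ → Half τ)
    (s : ι → Bool) (s' : κ → Bool) : vec T g c β (Sum.elim e e') (Sum.elim s s') =
      vec T g c β (Sum.elim e' e) (Sum.elim s' s) := by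
  have h1 : ConsP (hs T) g (Sum.elim e e') (Sum.elim s s') =
      ConsP (hs T) g (Sum.elim e' e) (Sum.elim s' s) := by
    ext o
    rw [mem_ConsP, mem_ConsP]
    refine and_congr Iff.rfl ?_
    rw [Sum.forall, Sum.forall]
    exact and_comm
  unfold vec
  rw [h1]

namespace Slab
variable {D : Slab} {x y y' k : ℤ}

lemma up_E {i j : ℤ} (hy : y ≤ k) (hb : D.b ≤ y) (h : (Sum.inr (i, j) : ZT) ∈ D.upT k) :
    (zsurf D.l D.r x y D.b D.t).nb .E (.inr (i, j)) =
      some (.inr (if (k ≤ j ∧ j < D.t) ∧ i = D.r - 1 then D.l else i + 1, j)) := by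
  have hlr := D.hlr
  rw [mem_upT] at h
  rcases h with h | ⟨h1, h2⟩
  · by_cases h3 : D.b ≤ j ∧ j < D.t
    · have h4 : ¬ (D.l - 1 ≤ i ∧ i ≤ D.r) := fun h4 => D.hU i j h4.1 h4.2 (by omega) h3.2 h
      rw [if_neg (by omega)]
      exact zs_E_up (by omega) (by omega)
    · rw [if_neg (by omega)]
      exact zs_E_up_open (by omega)
  · by_cases h3 : i = D.r - 1
    · rw [if_pos ⟨h2, h3⟩, h3]
      exact zs_E_up_end (by omega)
    · rw [if_neg (by omega)]
      exact zs_E_up h3 (by omega)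

lemma up_N {i j : ℤ} (hy : y ≤ k) (hk : k ≤ D.t) (hb : D.b ≤ y)
    (h : (Sum.inr (i, j) : ZT) ∈ D.upT k) :
    (zsurf D.l D.r x y D.b D.t).nb .N (.inr (i, j)) = some (.inr (i, j + 1)) := by
  rw [mem_upT] at h
  refine zs_N_up ?_
  rintro ⟨h1, h2, h3⟩
  rcases h with h | h
  · exact D.hU i j (by omega) (by omega) (by omega) (by omega) h
  · omega

/-- **the upper sheet does not depend on the position of `z`** -/
theorem res_up (hb : D.b ≤ y) (hy : y ≤ y') (ht : y' ≤ D.t) {T : Finset ZT} (hT : D.upT y' ⊆ T) :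
    res (hs (D.upT y')) ((zsurf D.l D.r x y D.b D.t).glue T) = D.gu y' := by
  rw [res_glue _ hT]
  refine Surf.glue_congr (fun t h t' _ => ?_) (fun t h t' _ => ?_)
  · rcases t with t | ⟨i, j⟩
    · exact absurd h inl_mem_upT
    · rw [up_E hy hb h, up_E le_rfl (by omega) h]
  · rcases t with t | ⟨i, j⟩
    · exact absurd h inl_mem_upT
    · rw [up_N hy ht hb h, up_N le_rfl ht (by omega) h]

/-! ### the row `y` -/

/-- the tiles of an upper row -/
def pu (D : Slab) (y : ℤ) (j : Fin (D.n + 1)) : ZT := .inr (D.l + j, y)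

lemma pu_inj : Injective (D.pu y) := by
  intro i j h
  have h1 := (Prod.mk.inj (Sum.inr.inj h)).1
  apply Fin.ext
  omega

lemma colu_range (j : Fin (D.n + 1)) : D.l ≤ D.l + j ∧ D.l + (j : ℤ) < D.r := by
  have := D.r_eq
  have := j.2
  omega

lemma upT_pred (ht : y < D.t) : D.upT y = D.upT (y + 1) ∪ rT (D.pu y) := by
  ext t
  rcases t with t | ⟨i, j⟩
  · rw [Finset.mem_union, mem_rT_iff]
    constructor
    · intro h; exact absurd h inl_mem_upT
    · rintro (h | ⟨k, h⟩)
      · exact absurd h inl_mem_upT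
      · unfold pu at h
        cases h
  · rw [Finset.mem_union, mem_upT, mem_upT, mem_rT_iff]
    constructor
    · rintro (h | h)
      · exact Or.inl (Or.inl h)
      · by_cases h1 : y < j
        · exact Or.inl (Or.inr ⟨h.1, by omega, h.2.2⟩)
        · right
          have := D.r_eq
          refine ⟨⟨(i - D.l).toNat, by omega⟩, ?_⟩
          unfold pu
          congr 2
          · simp only; omega
          · omega
    · rintro ((h | h) | ⟨k, h⟩)
      · exact Or.inl h
      · exact Or.inr ⟨h.1, by omega, h.2.2⟩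
      · obtain ⟨h1, h2⟩ := Prod.mk.inj (Sum.inr.inj h)
        have := D.colu_range k
        right
        omega

lemma up_disj (hb : D.b ≤ y) (ht : y < D.t) : Disjoint (D.upT (y + 1)) (rT (D.pu y)) := by
  rw [Finset.disjoint_left]
  intro t h h'
  obtain ⟨k, rfl⟩ := mem_rT_iff.1 h'
  unfold pu at h
  rw [mem_upT] at h
  have := D.colu_range k
  rcases h with h | h
  · exact D.hU _ _ (by omega) (by omega) (by omega) (by omega) h
  · omega

lemma pu_mem (ht : y < D.t) (j : Fin (D.n + 1)) : D.pu y j ∈ D.upT y := by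
  rw [upT_pred ht, Finset.mem_union]
  exact Or.inr (mem_rT j)

lemma nxtu_val (j : Fin (D.n + 1)) : (D.l + (nxt j : ℕ) : ℤ) =
    if D.l + (j : ℤ) = D.r - 1 then D.l else D.l + j + 1 := by
  have h1 := D.r_eq
  have h2 := j.2
  unfold nxt
  by_cases h : (j : ℕ) + 1 < D.n + 1
  · rw [dif_pos h, if_neg (by omega)]
    push_cast
    ring
  · rw [dif_neg h, if_pos (by omega)]
    simp

lemma gu_E (ht : y < D.t) (j : Fin (D.n + 1)) :
    D.gu y (D.pu y j, .E) = (D.pu y (nxt j), .W) := by
  refine Surf.glue_of_mem ?_ (pu_mem ht j) (pu_mem ht _)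
  unfold pu
  rw [Option.mem_def]
  have h1 := D.colu_range j
  have h2 := D.nxtu_val j
  by_cases h3 : D.l + (j : ℤ) = D.r - 1
  · rw [if_pos h3] at h2
    rw [h2, h3, zs_E_up_end ⟨le_rfl, ht⟩]
  · rw [if_neg h3] at h2
    rw [h2, zs_E_up h3 (by omega)]

lemma gu_S (j : Fin (D.n + 1)) : D.gu y (D.pu y j, .S) = (D.pu y j, .S) := by
  by_contra h
  obtain ⟨t', h1, h2, h3⟩ := Surf.glue_ne_iff.1 h
  have h4 := D.colu_range j
  unfold pu at h1
  simp only at h1
  rw [zs_S_right h4.1 h4.2 h4.1, Option.mem_def] at h1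
  rw [← Option.some.inj h1] at h3
  exact inl_mem_upT h3

lemma gu_N (ht : y + 1 < D.t) (j : Fin (D.n + 1)) :
    D.gu y (D.pu y j, .N) = D.botE (y + 1) j := by
  have h4 := D.colu_range j
  refine Surf.glue_of_mem (t' := .inr (D.l + j, y + 1)) ?_ (pu_mem (y := y) (by omega) j) ?_
  · unfold pu
    rw [zs_N_up (by omega)]
    rfl
  · rw [mem_upT]
    right
    omega

theorem gu_cut (hb : D.b ≤ y) (ht : y + 1 < D.t) :
    Cut (hs (D.upT (y + 1))) (hs (rT (D.pu y))) (D.gu y) (D.botE (y + 1)) fun j => (D.pu y j, .N) where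
  disj := hs_disjoint (up_disj hb (by omega))
  inv := Surf.glue_glue
  clo := by
    intro x hx
    rw [← hs_union, ← upT_pred (by omega), mem_hs] at hx ⊢
    exact Surf.glue_mem hx
  mem₁ := by
    intro j
    have := D.colu_range j
    rw [mem_hs]
    unfold botE
    rw [mem_upT]
    right
    omega
  mem₂ := fun j => mem_hs.2 (mem_rT j)
  glue := by
    intro j
    rw [← gu_N ht, gu, Surf.glue_glue]
  all := by
    intro x hx hx'
    obtain ⟨k, hk⟩ := mem_rT_iff.1 (mem_hs.1 hx')
    have h1 : ∀ k', x.1 ≠ D.pu y k' := by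
      intro k' h2
      exact (Finset.disjoint_left.1 (up_disj hb (by omega))) (mem_hs.1 hx) (h2 ▸ mem_rT k')
    have h2 : D.gu y (D.gu y x) = x := Surf.glue_glue x
    have h3 : D.gu y x = (D.pu y k, (D.gu y x).2) := Prod.ext hk rfl
    rw [h3] at h2
    cases h4 : (D.gu y x).2 with
    | E =>
      rw [h4, gu_E (by omega)] at h2
      exact absurd (congrArg Prod.fst h2).symm (h1 _)
    | W =>
      obtain ⟨i, hi⟩ := nxt_surj k
      rw [h4, ← hi, ← gu_E (by omega), gu, Surf.glue_glue] at h2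
      exact absurd (congrArg Prod.fst h2).symm (h1 _)
    | S =>
      rw [h4, gu_S] at h2
      exact absurd (congrArg Prod.fst h2).symm (h1 _)
    | N =>
      rw [h4, gu_N ht] at h2
      exact ⟨k, h2⟩

theorem row_up (hb : D.b ≤ y) (ht : y + 1 < D.t) :
    ClosedRow (D.pu y) (res (hs (rT (D.pu y))) (D.gu y)) where
  inj := pu_inj
  E := fun j => by
    rw [res_of_mem (mem_hs.2 (mem_rT j)) (by rw [gu_E (by omega)]; exact mem_hs.2 (mem_rT _)),
      gu_E (by omega)]
  W := fun j => by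
    have h : D.gu y (D.pu y (nxt j), .W) = (D.pu y j, .E) := by
      rw [← gu_E (by omega), gu, Surf.glue_glue]
    rw [res_of_mem (mem_hs.2 (mem_rT _)) (by rw [h]; exact mem_hs.2 (mem_rT _)), h]
  S := fun j => by
    rw [res_of_mem (mem_hs.2 (mem_rT j)) (by rw [gu_S]; exact mem_hs.2 (mem_rT _)), gu_S]
  N := fun j => by
    refine res_of_notMem ?_
    rw [gu_N ht]
    intro h
    exact (Finset.disjoint_left.1 (hs_disjoint (up_disj hb (by omega)))) ((gu_cut hb ht).mem₁ j) h

/-- **peeling an upper row** -/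
theorem vup_pred {d : Bool → ℂ} {F : Half ZT → Bool → ℂ} (hF : Fac D d F) (hb : D.b ≤ y)
    (ht : y + 1 < D.t) : D.vup F y =
      D.vup F (y + 1) ᵥ* SixV.T (D.n + 1) (fun b => dup b * d b) ((Real.pi / 6 : ℝ) : ℂ) := by
  funext s
  have h2 := vec_join (up_disj hb (by omega)) (gu_cut hb ht) (e' := fun j => (D.pu y j, Dir.S))
    (fun j => mem_rT j) c6 F (fun j => !s j)
  rw [← upT_pred (by omega)] at h2
  have hinv : Involutive (fun (s' : Cfg (D.n + 1)) => (fun j => !s' j : Cfg (D.n + 1))) := fun s' => by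
    funext j
    simp
  have h7 : D.vup F y s = ∑ s' : Cfg (D.n + 1),
      vec (D.upT (y + 1)) (res (hs (D.upT (y + 1))) (D.gu y)) c6 F (D.botE (y + 1)) (fun j => !s' j) *
        vec (rT (D.pu y)) (res (hs (rT (D.pu y))) (D.gu y)) c6 F
          (Sum.elim (fun j => (D.pu y j, Dir.S)) fun j => (D.pu y j, Dir.N))
          (Sum.elim (fun j => !s j) s') := by
    have e : D.vup F y s = vec (D.upT y) (D.gu y) c6 F (fun j => (D.pu y j, Dir.S)) fun j => !s j := rfl
    rw [e, h2, ← Equiv.sum_comp hinv.toPerm]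
    refine Finset.sum_congr rfl fun s' _ => ?_
    congr 2
    funext i
    cases i with
    | inl i => rfl
    | inr i =>
      show (!!s' i) = s' i
      exact Bool.not_not _
  rw [h7]
  show _ = ∑ s', D.vup F (y + 1) s' * SixV.T (D.n + 1) (fun b => dup b * d b) ((Real.pi / 6 : ℝ) : ℂ) s' s
  refine Finset.sum_congr rfl fun s' _ => ?_
  have h3 : res (hs (D.upT (y + 1))) (D.gu y) = D.gu (y + 1) :=
    res_up (T := D.upT y) hb (by omega) (by omega) (by
      rw [upT_pred (y := y) (by omega)]; exact Finset.subset_union_left)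
  have h4 := vec_row_T (row_up hb ht) (fun b => dup b * d b) F
    (fun j b => hF.upE _ _ b (D.colu_range j).1 (D.colu_range j).2 hb (by omega))
    (fun b => by
      have := hF.upW0 y b hb (by omega)
      simpa [pu] using this)
    (fun j b hj => by
      have h5 : 0 < (j : ℕ) := Nat.pos_of_ne_zero fun h => hj (Fin.ext h)
      exact hF.upW _ _ b (by have := D.colu_range j; omega) (D.colu_range j).2 hb (by omega)) s' s
  have h5 : ∀ j, F (D.pu y j, .N) (s' j) = 1 := fun j =>
    hF.upN _ _ _ (D.colu_range j).1 (D.colu_range j).2 hb ht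
  have h6 : ∀ j, F (D.pu y j, .S) (!s j) = 1 := fun j =>
    hF.upS _ _ _ (D.colu_range j).1 (D.colu_range j).2 hb (by omega)
  simp only [h5, h6, Finset.prod_const_one, mul_one] at h4
  rw [h3, vec_swap, ← h4]
  rfl

/-- **peeling `m` upper rows** -/
theorem vup_pow {d : Bool → ℂ} {F : Half ZT → Bool → ℂ} (hF : Fac D d F) (hb : D.b ≤ y) :
    ∀ m : ℕ, y + m < D.t → D.vup F y =
      D.vup F (y + m) ᵥ* SixV.T (D.n + 1) (fun b => dup b * d b) ((Real.pi / 6 : ℝ) : ℂ) ^ m
  | 0, _ => by simp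
  | (m + 1), ht => by
      push_cast at ht
      rw [vup_pow hF hb m (by omega), vup_pred (y := y + m) hF (by omega) (by omega),
        Matrix.vecMul_vecMul, ← pow_succ']
      congr 2
      push_cast
      ring

end Slab
end Full
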