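import Pool.Agent.Full.Net.Defs
import Pool.Agent.Full.Net.Cut

/-!
# Networks with labelled open half edges

`vec T g c β e s`: the network of `(T, g)` where the arrow on the half edge `e i` leaves the region if
and only if `s i = true`.  Joining two regions along labelled half edges is a sum over the arrows.
-/

set_option autoImplicit false

namespace Full.Net
open Finset Function

variable {τ : Type*} [DecidableEq τ]

/-- the weight of the arrows `o` -/
noncomputable def W (T : Finset τ) (c : ℂ) (β : Half τ → Bool → ℂ) (o : Finset (Half τ)) : ℂ :=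
  (∏ t ∈ T, tw c fun d => decide ((t, d) ∈ o)) * wt (hs T) β o

lemma net_def (T : Finset τ) (g : Half τ → Half τ) (c : ℂ) (β : Half τ → Bool → ℂ) :
    net T g c β = ∑ o ∈ Cons (hs T) g, W T c β o := rfl

/-- the network with given arrows on the half edges `e i` -/
noncomputable def vec {ι : Type*} [Fintype ι] (T : Finset τ) (g : Half τ → Half τ) (c : ℂ)
    (β : Half τ → Bool → ℂ) (e : ι → Half τ) (s : ι → Bool) : ℂ :=
  ∑ o ∈ ConsP (hs T) g e s, W T c β o

lemma hs_union (T₁ T₂ : Finset τ) : hs (T₁ ∪ T₂) = hs T₁ ∪ hs T₂ := by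
  ext x
  simp only [mem_hs, mem_union]

omit [DecidableEq τ] in
lemma hs_disjoint {T₁ T₂ : Finset τ} (h : Disjoint T₁ T₂) : Disjoint (hs T₁) (hs T₂) := by
  rw [Finset.disjoint_left] at h ⊢
  intro x hx hx'
  exact h (mem_hs.1 hx) (mem_hs.1 hx')

lemma W_congr {T : Finset τ} {c : ℂ} {β β' : Half τ → Bool → ℂ} {o o' : Finset (Half τ)}
    (h : ∀ x ∈ hs T, (x ∈ o ↔ x ∈ o')) (hβ : ∀ x ∈ hs T, β x = β' x) : W T c β o = W T c β' o' := by
  unfold W wt
  congr 1
  · refine prod_congr rfl fun t ht => ?_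
    congr 1
    funext d
    rw [decide_eq_decide]
    exact h _ (mem_hs.2 ht)
  · refine prod_congr rfl fun x hx => ?_
    rw [hβ x hx]
    congr 1
    rw [decide_eq_decide]
    exact h x hx

lemma W_union {T₁ T₂ : Finset τ} (h : Disjoint T₁ T₂) (c : ℂ) (β : Half τ → Bool → ℂ)
    (o : Finset (Half τ)) :
    W (T₁ ∪ T₂) c β o = W T₁ c β (o ∩ hs T₁) * W T₂ c β (o ∩ hs T₂) := by
  have h1 : W T₁ c β (o ∩ hs T₁) = W T₁ c β o := W_congr (fun x hx => by simp [mem_inter, hx])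
    fun _ _ => rfl
  have h2 : W T₂ c β (o ∩ hs T₂) = W T₂ c β o := W_congr (fun x hx => by simp [mem_inter, hx])
    fun _ _ => rfl
  rw [h1, h2]
  unfold W wt
  rw [hs_union, prod_union h, prod_union (hs_disjoint h)]
  ring

/-- **joining two networks** -/
theorem net_join {ι : Type*} [Fintype ι] [DecidableEq ι] {T₁ T₂ : Finset τ}
    {g : Half τ → Half τ} {e₁ e₂ : ι → Half τ} (hT : Disjoint T₁ T₂)
    (h : Cut (hs T₁) (hs T₂) g e₁ e₂) (c : ℂ) (β : Half τ → Bool → ℂ) :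
    net (T₁ ∪ T₂) g c β = ∑ s : ι → Bool, vec T₁ (res (hs T₁) g) c β e₁ s *
      vec T₂ (res (hs T₂) g) c β e₂ (fun i => !s i) := by
  have := h.sum_eq (W T₁ c β) (W T₂ c β)
  rw [net_def, hs_union]
  simp only [W_union hT]
  exact this

/-- **joining a network to a network with labelled half edges** -/
theorem vec_join {ι κ : Type*} [Fintype ι] [DecidableEq ι] [Fintype κ] {T₁ T₂ : Finset τ}
    {g : Half τ → Half τ} {e₁ e₂ : ι → Half τ} {e' : κ → Half τ} (hT : Disjoint T₁ T₂)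
    (h : Cut (hs T₁) (hs T₂) g e₁ e₂) (he : ∀ i, (e' i).1 ∈ T₂) (c : ℂ) (β : Half τ → Bool → ℂ)
    (s' : κ → Bool) :
    vec (T₁ ∪ T₂) g c β e' s' = ∑ s : ι → Bool, vec T₁ (res (hs T₁) g) c β e₁ s *
      vec T₂ (res (hs T₂) g) c β (Sum.elim e' e₂) (Sum.elim s' fun i => !s i) := by
  classical
  have h0 := h.sum_eq (W T₁ c β) (fun o => if ∀ i, (e' i ∈ o ↔ s' i = true) then W T₂ c β o else 0)
  have h1 : vec (T₁ ∪ T₂) g c β e' s' = ∑ o ∈ Cons (hs T₁ ∪ hs T₂) g, W T₁ c β (o ∩ hs T₁) *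
      (if ∀ i, (e' i ∈ o ∩ hs T₂ ↔ s' i = true) then W T₂ c β (o ∩ hs T₂) else 0) := by
    unfold vec ConsP
    rw [sum_filter, hs_union]
    refine sum_congr rfl fun o _ => ?_
    have h2 : (∀ i, (e' i ∈ o ∩ hs T₂ ↔ s' i = true)) ↔ ∀ i, (e' i ∈ o ↔ s' i = true) := by
      refine forall_congr' fun i => ?_
      rw [mem_inter, mem_hs]
      simp only [he i, and_true]
    by_cases h3 : ∀ i, (e' i ∈ o ↔ s' i = true)
    · rw [if_pos h3, if_pos (h2.2 h3), W_union hT]
    · rw [if_neg h3, if_neg (fun h4 => h3 (h2.1 h4)), mul_zero]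
  rw [h1, h0]
  refine sum_congr rfl fun s _ => ?_
  unfold vec
  congr 1
  rw [← sum_filter]
  refine sum_congr ?_ fun _ _ => rfl
  ext o
  rw [mem_filter, mem_ConsP, mem_ConsP]
  constructor
  · rintro ⟨⟨h2, h3⟩, h4⟩
    exact ⟨h2, fun i => by cases i with
      | inl i => exact h4 i
      | inr i => exact h3 i⟩
  · rintro ⟨h2, h3⟩
    exact ⟨⟨h2, fun i => h3 (Sum.inr i)⟩, fun i => h3 (Sum.inl i)⟩

lemma vec_congr {ι : Type*} [Fintype ι] {T : Finset τ} {g g' : Half τ → Half τ} {c : ℂ}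
    {β β' : Half τ → Bool → ℂ} {e : ι → Half τ} {s : ι → Bool} (hg : ∀ x ∈ hs T, g x = g' x)
    (hβ : ∀ x ∈ hs T, β x = β' x) : vec T g c β e s = vec T g' c β' e s := by
  have h1 : ConsP (hs T) g e s = ConsP (hs T) g' e s := by
    ext o
    rw [mem_ConsP, mem_ConsP]
    refine and_congr (and_congr Iff.rfl (forall₂_congr fun x hx => ?_)) Iff.rfl
    rw [hg x hx]
  unfold vec
  rw [h1]
  exact sum_congr rfl fun o _ => W_congr (fun _ _ => Iff.rfl) hβ

/-- the gluing by neighbours restricted to a subregion -/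
theorem res_glue (S : Surf τ) {T₁ T : Finset τ} (h : T₁ ⊆ T) :
    res (hs T₁) (S.glue T) = S.glue T₁ := by
  funext x
  by_cases h1 : S.glue T₁ x = x
  · rw [h1]
    by_cases h2 : x ∈ hs T₁ ∧ S.glue T x ∈ hs T₁
    · rw [res_of_mem h2.1 h2.2]
      by_contra h3
      obtain ⟨t', ht1, ht2, ht3⟩ := Surf.glue_ne_iff.1 h3
      have h4 : S.glue T x = (t', x.2.opp) := Surf.glue_of_mem ht1 ht2 ht3
      have h5 : t' ∈ T₁ := by
        have := mem_hs.1 h2.2
        rwa [h4] at this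
      have h6 : S.glue T₁ x ≠ x := Surf.glue_ne_iff.2 ⟨t', ht1, mem_hs.1 h2.1, h5⟩
      exact h6 h1
    · unfold res
      rw [if_neg h2]
  · obtain ⟨t', ht1, ht2, ht3⟩ := Surf.glue_ne_iff.1 h1
    have h4 : S.glue T x = (t', x.2.opp) := Surf.glue_of_mem ht1 (h ht2) (h ht3)
    have h5 : S.glue T₁ x = (t', x.2.opp) := Surf.glue_of_mem ht1 ht2 ht3
    rw [res_of_mem (mem_hs.2 ht2) (by rw [h4]; exact mem_hs.2 ht3), h4, h5]

end Full.Net
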