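import Pool.Agent.Full.Eng.CR
import Pool.Agent.Full.SixV.HalfD
import Pool.Agent.Full.SixV.Shift
import Pool.Agent.Full.Asm.SixD

/-!
# The matrix of the interior end at the column `k`
-/

set_option autoImplicit false

namespace Full.Dict3
open SixV Finset Function Matrix Eng

/-- the spin number `j` -/
def spx {N : ℕ} (u : Cfg N) (j : ℕ) : Bool := if h : j < N then u ⟨j, h⟩ else false

lemma spx_of {N : ℕ} (u : Cfg N) (j : Fin N) : spx u j = u j := dif_pos j.2

/-- the factors of the line on the left of the column `k` -/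
noncomputable def lf {N : ℕ} (k : ℕ) (u : Cfg N) : ℂ := ∏ j ∈ range k, dup (!spx u j)

variable {n : ℕ}

lemma finRotate_val (m : ℕ) (j : Fin (m + 1)) :
    ((finRotate (m + 1) j : Fin (m + 1)) : ℕ) = if (j : ℕ) = m then 0 else (j : ℕ) + 1 := by
  rw [finRotate_apply]
  by_cases h : (j : ℕ) = m
  · rw [if_pos h]
    have : j = Fin.last m := Fin.ext h
    rw [this, Fin.last_add_one, Fin.val_zero]
  · rw [if_neg h]
    have h2 : j ≠ Fin.last m := fun h' => h (congrArg Fin.val h')
    exact Fin.val_add_one_of_lt (Fin.lt_last_iff_ne_last.2 h2)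

lemma succAbove_val (k : Fin (n + 2)) (j : Fin (n + 1)) :
    ((k.succAbove j : Fin (n + 2)) : ℕ) = if (j : ℕ) < k then (j : ℕ) else (j : ℕ) + 1 := by
  by_cases h : (j : ℕ) < k
  · rw [if_pos h, Fin.succAbove_of_castSucc_lt k j h]
    rfl
  · rw [if_neg h, Fin.succAbove_of_le_castSucc k j (not_lt.1 h)]
    rfl

lemma rot_succAbove (k : Fin (n + 2)) (k' : Fin (n + 2)) (hk : (k' : ℕ) = k + 1) (j : Fin (n + 1)) :
    finRotate (n + 2) (k.succAbove j) = k'.succAbove (finRotate (n + 1) j) := by
  apply Fin.ext
  rw [finRotate_val, succAbove_val, succAbove_val, finRotate_val]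
  have := j.2
  have := k'.2
  split_ifs <;> omega

/-- the condition that the lower spins `s` are the upper spins `u` with a spin `false` inserted -/
def InsAt (k : Fin (n + 2)) (u : Cfg (n + 1)) (s : Cfg (n + 2)) : Prop :=
  s k = false ∧ ∀ j, s (k.succAbove j) = u j

instance (k : Fin (n + 2)) (u : Cfg (n + 1)) (s : Cfg (n + 2)) : Decidable (InsAt k u s) := by
  unfold InsAt
  infer_instance

lemma insAt_iff {k : Fin (n + 2)} {u : Cfg (n + 1)} {s : Cfg (n + 2)} :
    InsAt k u s ↔ s = Fin.insertNth k false u := by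
  unfold InsAt
  constructor
  · rintro ⟨h1, h2⟩
    funext j
    rcases Fin.eq_self_or_eq_succAbove k j with rfl | ⟨i, rfl⟩
    · rw [Fin.insertNth_apply_same, h1]
    · rw [Fin.insertNth_apply_succAbove, h2]
  · rintro rfl
    exact ⟨Fin.insertNth_apply_same _ _ _, fun j => Fin.insertNth_apply_succAbove _ _ _ _⟩

lemma insAt_rot {k k' : Fin (n + 2)} (hk : (k' : ℕ) = k + 1) (u : Cfg (n + 1)) (s : Cfg (n + 2)) :
    InsAt k (fun j => u (finRotate (n + 1) j)) (fun j => s (finRotate (n + 2) j)) ↔ InsAt k' u s := by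
  have h1 : finRotate (n + 2) k = k' := by
    apply Fin.ext
    rw [finRotate_val]
    have := k'.2
    split_ifs <;> omega
  unfold InsAt
  beta_reduce
  rw [h1]
  refine and_congr Iff.rfl ?_
  constructor
  · intro h j
    have h2 := h ((finRotate (n + 1)).symm j)
    rw [rot_succAbove k k' hk, Equiv.apply_symm_apply] at h2
    exact h2
  · intro h j
    rw [rot_succAbove k k' hk]
    exact h _

/-- **the matrix of the interior end at the column `k`** -/
theorem Wx_apply (d : Bool → ℂ) (hd : SixV.Tw d) : ∀ (k : ℕ) (hk : k < n + 2) (u : Cfg (n + 1))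
    (s : Cfg (n + 2)), Wx (TupD (n + 1) d) (TlowD (n + 1) d) (Wm (n + 1) false) k u s =
      if InsAt ⟨k, hk⟩ u s then lf k u else 0
  | 0, hk, u, s => by
    unfold Wx
    rw [pow_zero, pow_zero, Matrix.one_mul, Matrix.mul_one]
    unfold Wm lf
    rw [range_zero, prod_empty]
    congr 1
    unfold InsAt
    rw [eq_iff_iff]
    refine and_congr Iff.rfl ?_
    rw [funext_iff]
    refine forall_congr' fun j => ?_
    rw [show (⟨0, hk⟩ : Fin (n + 2)) = 0 from rfl, Fin.zero_succAbove]
    rfl
  | k + 1, hk, u, s => by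
    have ih := Wx_apply d hd k (by omega)
    have hlam : (((Real.pi / 3 : ℝ) : ℂ)) = lam := rfl
    have hstar : ∀ x, star (dup x * d x) = dup (!x) * d (!x) := fun x => hd.dup_mul.star x
    rw [Wx_succ, hlam]
    have e1 : ∀ v : Cfg (n + 1), TupD (n + 1) d lam u v =
        if v = (fun j => u (finRotate (n + 1) j)) then star (dup (u 0) * d (u 0)) else 0 := fun v =>
      T_lam n (fun x => dup x * d x) hstar u v
    have e2 : ∀ t : Cfg (n + 2), TlowD (n + 1) d 0 t s =
        if t = (fun j => s (finRotate (n + 2) j)) then d (s 0) else 0 := fun t =>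
      T_zero (n + 1) d t s
    rw [Matrix.mul_apply]
    simp only [e2]
    rw [Finset.sum_eq_single (fun j => s (finRotate (n + 2) j)) (fun t _ ht => by rw [if_neg ht, mul_zero])
      (fun h => absurd (Finset.mem_univ _) h), if_pos rfl, Matrix.mul_apply]
    simp only [e1]
    rw [Finset.sum_eq_single (fun j => u (finRotate (n + 1) j)) (fun t _ ht => by rw [if_neg ht, zero_mul])
      (fun h => absurd (Finset.mem_univ _) h), if_pos rfl, ih]
    by_cases h : InsAt ⟨k + 1, hk⟩ u s
    · rw [if_pos h, if_pos ((insAt_rot (k := ⟨k, by omega⟩) (k' := ⟨k + 1, hk⟩) rfl u s).2 h), hstar]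
      have h0 : s 0 = u 0 := by
        have h1 := h.2 0
        have h2 : (⟨k + 1, hk⟩ : Fin (n + 2)).succAbove 0 = 0 := by
          apply Fin.ext
          rw [succAbove_val]
          simp
        rwa [h2] at h1
      have h3 : lf k (fun j => u (finRotate (n + 1) j)) = ∏ j ∈ range k, dup (!spx u (j + 1)) := by
        unfold lf
        refine Finset.prod_congr rfl fun j hj => ?_
        rw [Finset.mem_range] at hj
        congr 2
        unfold spx
        rw [dif_pos (by omega : j < n + 1), dif_pos (by omega : j + 1 < n + 1)]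
        show u (finRotate (n + 1) ⟨j, _⟩) = u ⟨j + 1, _⟩
        congr 1
        apply Fin.ext
        rw [finRotate_val]
        simp only
        rw [if_neg (by omega)]
      rw [h3, h0]
      unfold lf
      rw [Finset.prod_range_succ']
      have h4 : spx u 0 = u 0 := spx_of u 0
      have h5 : d (!u 0) * d (u 0) = 1 := by
        have := hd.mul
        cases u 0
        · simpa using this
        · simpa [mul_comm] using this
      rw [h4]
      calc dup (!u 0) * d (!u 0) * (∏ j ∈ range k, dup (!spx u (j + 1))) * d (u 0)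
          = (∏ j ∈ range k, dup (!spx u (j + 1))) * dup (!u 0) * (d (!u 0) * d (u 0)) := by ring
        _ = (∏ j ∈ range k, dup (!spx u (j + 1))) * dup (!u 0) := by rw [h5, mul_one]
    · rw [if_neg h, if_neg (fun h' => h ((insAt_rot (k := ⟨k, by omega⟩) (k' := ⟨k + 1, hk⟩) rfl u s).1 h')),
        mul_zero, zero_mul]

end Full.Dict3
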