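import Pool.Agent.Full.Dict3.UpV
import Pool.Agent.Full.Dict3.WxFormula

/-!
# The network of a slab domain with an interior end, cut along the line of `z`
-/

set_option autoImplicit false

namespace Full
open SixV Finset Function Net Matrix Eng Dict3

namespace Slab
variable {D : Slab} {x y : ℤ}

/-- the upper sides of the lower tiles which are glued across the line -/
def crE (D : Slab) (y : ℤ) (k : Fin (D.n + 2)) (j : Fin (D.n + 1)) : Half ZT := D.topE y (k.succAbove j)

lemma gc_crE (hb : D.b < y) (ht : y < D.t) (k : Fin (D.n + 2)) (j : Fin (D.n + 1)) :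
    D.gc (D.l + k) y (D.crE y k j) = D.botE y j := by
  have h1 := D.r_eq
  have h2 := j.2
  have h3 := k.2
  have h4 := succAbove_val k j
  unfold gc crE topE botE
  refine Surf.glue_of_mem (t' := (Sum.inr (D.l + j, y) : ZT)) ?_ ?_ ?_
  · by_cases h5 : (j : ℕ) < k
    · rw [if_pos h5] at h4
      rw [h4, Option.mem_def]
      exact zs_N_left (by omega) (by omega) (by omega)
    · rw [if_neg h5] at h4
      rw [h4, Option.mem_def]
      have h6 := zs_N_right (l := D.l) (r := D.r) (x := D.l + k) (y := y) (b := D.b) (t := D.t)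
        (i := D.l + (((j : ℕ) + 1 : ℕ) : ℤ)) (by omega) (by omega) (by omega)
      rw [h6]
      congr 3
      push_cast
      ring
  · rw [mem_low]
    right
    have := D.col_range (k.succAbove j)
    omega
  · rw [mem_up]
    right
    omega

theorem z_cut (hb : D.b < y) (ht : y < D.t) (k : Fin (D.n + 2)) :
    Cut (hs (D.lowT y)) (hs (D.upT y)) (D.gc (D.l + k) y) (D.crE y k) (D.botE y) where
  disj := hs_disjoint low_up_disjoint
  inv := Surf.glue_glue
  clo := by
    intro x hx
    rw [← hs_union, ← T_eq, mem_hs] at hx ⊢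
    exact Surf.glue_mem hx
  mem₁ := by
    intro j
    rw [mem_hs]
    unfold crE topE
    rw [mem_lowT]
    right
    have := D.col_range (k.succAbove j)
    omega
  mem₂ := by
    intro j
    rw [mem_hs]
    unfold botE
    rw [mem_upT]
    right
    have := D.r_eq
    have := j.2
    omega
  glue := gc_crE hb ht k
  all := by
    intro w hw hw'
    obtain ⟨t, d⟩ := w
    rcases t with ⟨i, j⟩ | t
    swap
    · exact absurd (mem_hs.1 hw) inr_mem_lowT
    have h0 : D.gc (D.l + k) y (.inl (i, j), d) ≠ (.inl (i, j), d) := by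
      intro h
      rw [h, mem_hs] at hw'
      exact inl_mem_upT hw'
    obtain ⟨t', h1, h2, h3⟩ := Surf.glue_ne_iff.1 h0
    have h4 : D.gc (D.l + k) y (.inl (i, j), d) = (t', d.opp) := Surf.glue_of_mem h1 h2 h3
    rw [h4, mem_hs] at hw'
    rcases t' with t' | ⟨i', j'⟩
    · exact absurd hw' inl_mem_upT
    simp only at h1
    cases d with
    | E =>
      exfalso
      have h5 : (zsurf D.l D.r (D.l + k) y D.b D.t).nb .E (.inl (i, j)) =
          if D.b ≤ j ∧ j < y then
        (if i = D.r then some (.inl (D.l, j)) else if i = D.l - 1 then none else some (.inl (i + 1, j)))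
        else some (.inl (i + 1, j)) := rfl
      rw [h5, Option.mem_def] at h1
      split_ifs at h1 <;> simp at h1
    | W =>
      exfalso
      have h5 : (zsurf D.l D.r (D.l + k) y D.b D.t).nb .W (.inl (i, j)) =
          if D.b ≤ j ∧ j < y then
        (if i = D.l then some (.inl (D.r, j)) else if i = D.r + 1 then none else some (.inl (i - 1, j)))
        else some (.inl (i - 1, j)) := rfl
      rw [h5, Option.mem_def] at h1
      split_ifs at h1 <;> simp at h1
    | S =>
      exfalso
      have h5 : (zsurf D.l D.r (D.l + k) y D.b D.t).nb .S (.inl (i, j)) =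
          if j = y ∧ D.l ≤ i ∧ i ≤ D.r then none else some (.inl (i, j - 1)) := rfl
      rw [h5, Option.mem_def] at h1
      split_ifs at h1
      simp at h1
    | N =>
      have h6 := D.r_eq
      have h7 := k.2
      have h5 : (zsurf D.l D.r (D.l + k) y D.b D.t).nb .N (.inl (i, j)) =
          if j = y - 1 ∧ D.l ≤ i ∧ i ≤ D.r then
        (if i < D.l + k ∧ i < D.r then some (.inr (i, y)) else if D.l + k < i ∧ D.l < i then some (.inr (i - 1, y))
          else none)
        else some (.inl (i, j + 1)) := rfl
      rw [h5, Option.mem_def] at h1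
      split_ifs at h1 with h8 h9 h10
      · refine ⟨⟨(i - D.l).toNat, by omega⟩, ?_⟩
        have h11 := succAbove_val k ⟨(i - D.l).toNat, by omega⟩
        simp only at h11
        rw [if_pos (by omega)] at h11
        unfold crE topE
        rw [h11]
        refine Prod.ext (congrArg Sum.inl (Prod.ext ?_ ?_)) rfl
        · simp only; omega
        · simp only; omega
      · refine ⟨⟨(i - 1 - D.l).toNat, by omega⟩, ?_⟩
        have h11 := succAbove_val k ⟨(i - 1 - D.l).toNat, by omega⟩
        simp only at h11
        rw [if_neg (by omega)] at h11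
        unfold crE topE
        rw [h11]
        refine Prod.ext (congrArg Sum.inl (Prod.ext ?_ ?_)) rfl
        · simp only; omega
        · simp only; omega
      · simp at h1

/-- the lower sides of the upper sheet on the line `y` on the left of `z` -/
def lside (l x y : ℤ) : Half ZT → Bool
  | (.inr (i, j), .S) => decide (j = y ∧ l ≤ i ∧ i < x)
  | _ => false

/-- the factors with the line on the left of `z` and the source `z` -/
noncomputable def bz (D : Slab) (x y : ℤ) (F : Half ZT → Bool → ℂ) (w : Half ZT) (b : Bool) : ℂ :=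
  F w b * ((if w = z x y ∧ b = true then 0 else 1) * if lside D.l x y w = true then dup b else 1)

lemma bz_low {x : ℤ} {F : Half ZT → Bool → ℂ} {w : Half ZT} {b : Bool} (hw : w.1 ∈ D.lowT y)
    (h : ¬ (w = z x y ∧ b = true)) : D.bz x y F w b = F w b := by
  unfold bz
  rw [if_neg h, if_neg, mul_one, mul_one]
  obtain ⟨t | t, d⟩ := w
  · simp [lside]
  · exact absurd hw inr_mem_lowT

lemma bz_up {x : ℤ} {F : Half ZT → Bool → ℂ} {w : Half ZT} {b : Bool} (hw : w.1 ∈ D.upT y) :
    D.bz x y F w b = F w b * if lside D.l x y w = true then dup b else 1 := by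
  unfold bz
  rw [if_neg, one_mul]
  rintro ⟨rfl, -⟩
  exact inl_mem_upT hw

lemma z_eq (k : Fin (D.n + 2)) : z (D.l + k) y = D.topE y k := rfl

lemma vlow_z (hb : D.b < y) (F : Half ZT → Bool → ℂ) (k : Fin (D.n + 2)) (s : Cfg (D.n + 1)) :
    Net.vec (D.lowT y) (D.gl y) c6 (D.bz (D.l + k) y F) (D.crE y k) s =
      D.vlow F y (Fin.insertNth k false s) := by
  unfold vlow Net.vec
  symm
  have hz : (z (D.l + k) y).1 ∈ D.lowT y := by
    unfold z
    rw [mem_lowT]
    right
    have := D.col_range k
    omega
  refine (Finset.sum_congr rfl fun o ho => ?_).trans (Finset.sum_subset (fun o ho => ?_) fun o ho hno => ?_)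
  · rw [mem_ConsP] at ho
    have h1 := ho.2 k
    rw [Fin.insertNth_apply_same] at h1
    unfold W
    congr 1
    unfold wt
    refine Finset.prod_congr rfl fun w hw => ?_
    rw [bz_low (mem_hs.1 hw)]
    rintro ⟨rfl, h3⟩
    rw [decide_eq_true_eq, z_eq, h1] at h3
    exact absurd h3 (by simp)
  · rw [mem_ConsP] at ho ⊢
    refine ⟨ho.1, fun j => ?_⟩
    have h1 := ho.2 (k.succAbove j)
    rw [Fin.insertNth_apply_succAbove] at h1
    exact h1
  · have h1 : z (D.l + k) y ∈ o := by
      by_contra h2
      refine hno ?_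
      rw [mem_ConsP] at ho ⊢
      refine ⟨ho.1, fun j => ?_⟩
      rcases Fin.eq_self_or_eq_succAbove k j with rfl | ⟨i, rfl⟩
      · rw [Fin.insertNth_apply_same, ← z_eq]
        exact ⟨fun h => absurd h h2, fun h => absurd h (by simp)⟩
      · rw [Fin.insertNth_apply_succAbove]
        exact ho.2 i
    unfold W wt
    rw [Finset.prod_eq_zero (mem_hs.2 hz), mul_zero]
    unfold bz
    rw [if_pos ⟨rfl, decide_eq_true h1⟩]
    ring

lemma vup_z (ht : y < D.t) (F : Half ZT → Bool → ℂ) (k : Fin (D.n + 2)) (s : Cfg (D.n + 1)) :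
    Net.vec (D.upT y) (D.gu y) c6 (D.bz (D.l + k) y F) (D.botE y) (fun j => !s j) =
      lf k s * D.vup F y s := by
  have hr := D.r_eq
  have hk := k.2
  unfold vup Net.vec
  rw [Finset.mul_sum]
  refine Finset.sum_congr rfl fun o ho => ?_
  rw [mem_ConsP] at ho
  have h1 : wt (hs (D.upT y)) (D.bz (D.l + k) y F) o = wt (hs (D.upT y)) F o *
      ∏ w ∈ hs (D.upT y), if lside D.l (D.l + k) y w = true then dup (decide (w ∈ o)) else 1 := by
    unfold wt
    rw [← Finset.prod_mul_distrib]
    exact Finset.prod_congr rfl fun w hw => bz_up (mem_hs.1 hw)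
  have h2 : (∏ w ∈ hs (D.upT y), if lside D.l (D.l + k) y w = true then dup (decide (w ∈ o)) else 1) =
      lf k s := by
    have h3 : (Finset.range (k : ℕ)).image (fun j : ℕ => ((.inr (D.l + j, y), .S) : Half ZT)) ⊆ hs (D.upT y) := by
      intro w hw
      obtain ⟨j, hj, rfl⟩ := Finset.mem_image.1 hw
      rw [Finset.mem_range] at hj
      rw [mem_hs, mem_upT]
      right
      omega
    rw [← Finset.prod_subset h3, Finset.prod_image]
    · unfold lf
      refine Finset.prod_congr rfl fun j hj => ?_
      rw [Finset.mem_range] at hj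
      have h4 : lside D.l (D.l + k) y (.inr (D.l + j, y), .S) = true := by
        unfold lside
        rw [decide_eq_true_eq]
        omega
      rw [if_pos h4]
      congr 1
      have h5 : j < D.n + 1 := by omega
      unfold spx
      rw [dif_pos h5]
      have h6 := ho.2 ⟨j, h5⟩
      unfold botE at h6
      simp only at h6
      rw [← Bool.coe_iff_coe, decide_eq_true_eq, h6]
    · intro i _ j _ h
      have h4 := (Prod.mk.inj (Sum.inr.inj (Prod.mk.inj h).1)).1
      omega
    · intro w hw hw'
      rw [if_neg]
      intro h4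
      refine hw' ?_
      obtain ⟨t | ⟨i, j⟩, d⟩ := w
      · exact absurd h4 (by simp [lside])
      · cases d with
        | S =>
          unfold lside at h4
          rw [decide_eq_true_eq] at h4
          rw [Finset.mem_image]
          refine ⟨(i - D.l).toNat, ?_, ?_⟩
          · rw [Finset.mem_range]; omega
          · refine Prod.ext (congrArg Sum.inr (Prod.ext ?_ ?_)) rfl
            · simp only; omega
            · simp only; omega
        | E => exact absurd h4 (by simp [lside])
        | W => exact absurd h4 (by simp [lside])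
        | N => exact absurd h4 (by simp [lside])
  unfold W
  rw [h1, h2]
  ring

/-- **the network with the end `z` cut along the line of `z`** -/
theorem net_z (hb : D.b < y) (ht : y < D.t) (F : Half ZT → Bool → ℂ) (k : Fin (D.n + 2)) :
    net (D.T y) (D.gc (D.l + k) y) c6 (D.bz (D.l + k) y F) =
      ∑ s : Cfg (D.n + 1), D.vup F y s * (lf k s * D.vlow F y (Fin.insertNth k false s)) := by
  have h := net_join low_up_disjoint (z_cut hb ht k) c6 (D.bz (D.l + k) y F)
  rw [← T_eq] at h
  rw [h]
  refine Finset.sum_congr rfl fun s _ => ?_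
  have h1 : res (hs (D.lowT y)) (D.gc (D.l + k) y) = D.gl y :=
    res_low hb.le le_rfl ht.le (by rw [T_eq]; exact Finset.subset_union_left)
  have h2 : res (hs (D.upT y)) (D.gc (D.l + k) y) = D.gu y :=
    res_up hb.le le_rfl ht.le (by rw [T_eq]; exact Finset.subset_union_right)
  rw [h1, h2, vlow_z hb, vup_z ht]
  ring

/-- the same with the matrix of the column of `z` -/
theorem net_Wx {d : Bool → ℂ} (hd : SixV.Tw d) (hb : D.b < y) (ht : y < D.t) (F : Half ZT → Bool → ℂ)
    (k : Fin (D.n + 2)) :
    net (D.T y) (D.gc (D.l + k) y) c6 (D.bz (D.l + k) y F) =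
      D.vup F y ⬝ᵥ (Wx (TupD (D.n + 1) d) (TlowD (D.n + 1) d) (Wm (D.n + 1) false) k *ᵥ D.vlow F y) := by
  rw [net_z hb ht]
  unfold dotProduct
  refine Finset.sum_congr rfl fun u _ => ?_
  congr 1
  show _ = ∑ s : Cfg (D.n + 2), Wx (TupD (D.n + 1) d) (TlowD (D.n + 1) d) (Wm (D.n + 1) false) k u s *
    D.vlow F y s
  rw [Finset.sum_eq_single (Fin.insertNth k false u : Cfg (D.n + 2))]
  · rw [Wx_apply d hd k k.2, if_pos (insAt_iff.2 rfl)]
  · intro s _ hs
    rw [Wx_apply d hd k k.2, if_neg (fun h => hs (insAt_iff.1 h)), zero_mul]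
  · intro h
    exact absurd (Finset.mem_univ _) h

end Slab
end Full
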